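import Pool.Agent.W5h21.MH.Tran

/-!
# Change of the index set, second part
-/

set_option autoImplicit false
set_option linter.unusedSectionVars false

open Matrix

namespace Pool.Agent.W5h21.MH

section

variable {F : Type} [Field F] {Γ : Type} {ι ι' : Type} [Fintype ι] [DecidableEq ι] [Fintype ι']
  [DecidableEq ι']

theorem sc_gen [Group Γ] [TopologicalSpace Γ] (ε : ι' ≃ ι) {ρ : Γ → Matrix ι ι F}
    (h : ∀ (A : Matrix ι ι F) (U : Subgroup Γ), IsOpen (U : Set Γ) →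
      (∀ σ ∈ U, A * ρ σ = ρ σ * A) → ∃ a : F, A = a • (1 : Matrix ι ι F))
    (A : Matrix ι' ι' F) (U : Subgroup Γ) (hU : IsOpen (U : Set Γ))
    (hA : ∀ σ ∈ U, A * (ρ σ).submatrix ε ε = (ρ σ).submatrix ε ε * A) :
    ∃ a : F, A = a • (1 : Matrix ι' ι' F) := by
  obtain ⟨a, ha⟩ := h (A.submatrix ε.symm ε.symm) U hU (by
    intro σ hσ
    have h1 := congrArg (fun B => B.submatrix ε.symm ε.symm) (hA σ hσ)
    rw [← Matrix.submatrix_mul_equiv _ _ _ ε.symm, ← Matrix.submatrix_mul_equiv _ _ _ ε.symm,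
      Matrix.submatrix_submatrix] at h1
    simpa using h1)
  refine ⟨a, ?_⟩
  have h1 := congrArg (fun B => B.submatrix ε ε) ha
  simp only [Matrix.submatrix_submatrix] at h1
  simpa [Matrix.submatrix_smul] using h1

/-- both directions -/
theorem sc_iff [Group Γ] [TopologicalSpace Γ] (ε : ι' ≃ ι) {ρ : Γ → Matrix ι ι F} :
    (∀ (A : Matrix ι' ι' F) (U : Subgroup Γ), IsOpen (U : Set Γ) →
      (∀ σ ∈ U, A * (ρ σ).submatrix ε ε = (ρ σ).submatrix ε ε * A) →
        ∃ a : F, A = a • (1 : Matrix ι' ι' F)) ↔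
    ∀ (A : Matrix ι ι F) (U : Subgroup Γ), IsOpen (U : Set Γ) →
      (∀ σ ∈ U, A * ρ σ = ρ σ * A) → ∃ a : F, A = a • (1 : Matrix ι ι F) := by
  constructor
  · intro h A U hU hA
    refine sc_gen ε.symm (ρ := fun σ => (ρ σ).submatrix ε ε) h A U hU fun σ hσ => ?_
    have h1 : ((ρ σ).submatrix ε ε).submatrix ε.symm ε.symm = ρ σ := by
      rw [Matrix.submatrix_submatrix]
      simp
    rw [h1]
    exact hA σ hσ
  · intro h A U hU hA
    exact sc_gen ε h A U hU hA

end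

end Pool.Agent.W5h21.MH
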