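import Pool.Agent.R932.EV.Ss
import Pool.Agent.W544.PG.MainP

/-!
# Change of the index set
-/

set_option autoImplicit false
set_option linter.unusedSectionVars false

open Matrix
open Pool.Agent.W544.PG (Enum)

namespace Pool.Agent.W5h21.MH

section

variable {F : Type} [Field F] {Γ : Type} {ι : Type} [Fintype ι] [DecidableEq ι] {k : ℕ}

theorem sub_mulVec (ε : Fin k ≃ ι) (A : Matrix ι ι F) (f : ι → F) :
    A.submatrix ε ε *ᵥ (f ∘ ε) = (A *ᵥ f) ∘ ε := by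
  rw [Matrix.submatrix_mulVec_equiv]
  congr 2
  funext x
  simp

theorem ss_tran (ε : Fin k ≃ ι) {ρ : Γ → Matrix ι ι F}
    (h : ∀ W : Submodule F (ι → F), (∀ σ, ∀ w ∈ W, ρ σ *ᵥ w ∈ W) →
      ∃ W' : Submodule F (ι → F), IsCompl W W' ∧ ∀ σ, ∀ w ∈ W', ρ σ *ᵥ w ∈ W')
    (W : Submodule F (Fin k → F)) (hW : ∀ σ, ∀ w ∈ W, (ρ σ).submatrix ε ε *ᵥ w ∈ W) :
    ∃ W' : Submodule F (Fin k → F), IsCompl W W' ∧
      ∀ σ, ∀ w ∈ W', (ρ σ).submatrix ε ε *ᵥ w ∈ W' := by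
  let Φ : (ι → F) ≃ₗ[F] (Fin k → F) := LinearEquiv.funCongrLeft F F ε
  have hΦ : ∀ f, Φ f = f ∘ ε := fun f => rfl
  obtain ⟨V, hV, hVs⟩ := h (W.comap Φ.toLinearMap) (by
    intro σ w hw
    rw [Submodule.mem_comap] at hw ⊢
    have h1 := hW σ _ hw
    have h2 : (ρ σ).submatrix ε ε *ᵥ (Φ.toLinearMap w) = Φ.toLinearMap (ρ σ *ᵥ w) :=
      sub_mulVec ε (ρ σ) w
    rwa [h2] at h1)
  refine ⟨V.map Φ.toLinearMap, ?_, ?_⟩
  · have h1 : W = (W.comap Φ.toLinearMap).map Φ.toLinearMap := by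
      rw [Submodule.map_comap_eq, LinearMap.range_eq_top.2 Φ.surjective, top_inf_eq]
    rw [h1]
    exact hV.map (Submodule.orderIsoMapComap Φ)
  · rintro σ _ ⟨w, hw, rfl⟩
    refine ⟨ρ σ *ᵥ w, hVs σ w hw, ?_⟩
    exact (sub_mulVec ε (ρ σ) w).symm

theorem sc_tran [Group Γ] [TopologicalSpace Γ] (ε : Fin k ≃ ι) {ρ : Γ → Matrix ι ι F}
    (h : ∀ (A : Matrix ι ι F) (U : Subgroup Γ), IsOpen (U : Set Γ) →
      (∀ σ ∈ U, A * ρ σ = ρ σ * A) → ∃ a : F, A = a • (1 : Matrix ι ι F))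
    (A : Matrix (Fin k) (Fin k) F) (U : Subgroup Γ) (hU : IsOpen (U : Set Γ))
    (hA : ∀ σ ∈ U, A * (ρ σ).submatrix ε ε = (ρ σ).submatrix ε ε * A) :
    ∃ a : F, A = a • (1 : Matrix (Fin k) (Fin k) F) := by
  obtain ⟨a, ha⟩ := h (A.submatrix ε.symm ε.symm) U hU (by
    intro σ hσ
    have h1 := congrArg (fun B => B.submatrix ε.symm ε.symm) (hA σ hσ)
    rw [← Matrix.submatrix_mul_equiv _ _ _ ε.symm, ← Matrix.submatrix_mul_equiv _ _ _ ε.symm,
      Matrix.submatrix_submatrix] at h1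
    simpa using h1)
  refine ⟨a, ?_⟩
  have h1 := congrArg (fun B => B.submatrix ε ε) ha
  simp only [Matrix.submatrix_submatrix] at h1
  simpa [Matrix.submatrix_smul] using h1

end

theorem enum_of_equiv {n r k : ℕ} {c : Fin n → Fin r} {i : Fin r} (ε : Fin k ≃ {a // c a = i}) :
    Enum c (fun x => (ε x).1) i where
  inj := fun x y h => ε.injective (Subtype.ext h)
  col := fun x => (ε x).2
  surj := fun a ha => ⟨ε.symm ⟨a, ha⟩, by rw [Equiv.apply_symm_apply]⟩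

theorem exists_equiv {n r k : ℕ} {c : Fin n → Fin r} {i : Fin r}
    (h : (Finset.univ.filter fun a => c a = i).card = k) : Nonempty (Fin k ≃ {a // c a = i}) := by
  have h1 : Fintype.card {a // c a = i} = k := by
    rw [Fintype.card_subtype, h]
  exact ⟨(Fintype.equivFinOfCardEq h1).symm⟩

end Pool.Agent.W5h21.MH
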