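import Pool.Agent.R932.MtOdd
import Pool.Agent.R932.PO.All
import Pool.Agent.W544.PG.MainP

/-!
# The Mumford-Tate conjecture for a sum of several pieces, from joint tangent vectors
-/

set_option autoImplicit false
set_option linter.unusedSectionVars false

open Matrix Polynomial Filter Topology NumberField IsDedekindDomain
open Pool.Agent.Y142.ZO Pool.Agent.Y142.ZI Pool.Agent.Y142.ZS
open Pool.Agent.Y95.MT
open Pool.Agent.W544.PG (HS BD Enum)
open Pool.Agent.R932.PO (JTan IsForm)

namespace Pool.Agent.W5h21.MH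

noncomputable section

section blocks

variable {n r k : ℕ} {c : Fin n → Fin r} {e : Fin k → Fin n} {i : Fin r}

theorem sum_enum {R : Type} [AddCommMonoid R] (he : Enum c e i) (f : Fin n → R)
    (hf : ∀ a, c a ≠ i → f a = 0) : ∑ a, f a = ∑ z, f (e z) := by
  classical
  rw [← Finset.sum_image (s := Finset.univ) (g := e) (f := f) fun x _ y _ h => he.inj h]
  refine (Finset.sum_subset (Finset.subset_univ _) fun a _ ha => hf a fun h => ha ?_).symm
  obtain ⟨z, rfl⟩ := he.surj a h
  exact Finset.mem_image_of_mem e (Finset.mem_univ z)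

theorem blk_mul {R : Type} [CommRing R] (he : Enum c e i) {A : Matrix (Fin n) (Fin n) R}
    (hA : BD c A) (B : Matrix (Fin n) (Fin n) R) :
    (A * B).submatrix e e = A.submatrix e e * B.submatrix e e := by
  ext x y
  rw [submatrix_apply, Matrix.mul_apply, Matrix.mul_apply,
    sum_enum he (fun a => A (e x) a * B a (e y)) fun a ha => by
      rw [hA (e x) a (by rw [he.col]; exact fun h => ha h.symm), zero_mul]]
  rfl

theorem bd_transpose {R : Type} [CommRing R] {A : Matrix (Fin n) (Fin n) R} (hA : BD c A) :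
    BD c Aᵀ := fun a b h => hA b a fun h' => h h'.symm

theorem bd_map {R S : Type} [CommRing R] [CommRing S] (f : R →+* S)
    {A : Matrix (Fin n) (Fin n) R} (hA : BD c A) : BD c (A.map f) := by
  intro a b h
  rw [Matrix.map_apply, hA a b h, map_zero]

/-- a block of a nondegenerate form is nondegenerate -/
theorem blk_det {F : Type} [Field F] (he : Enum c e i) {Q : Matrix (Fin n) (Fin n) F}
    (hQ : BD c Q) (hd : Q.det ≠ 0) : (Q.submatrix e e).det ≠ 0 := by
  classical
  intro h0
  obtain ⟨v, hv, hv0⟩ := Matrix.exists_mulVec_eq_zero_iff.2 h0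
  apply hd
  refine Matrix.exists_mulVec_eq_zero_iff.1 ?_
  let w : Fin n → F := fun a => if h : ∃ z, e z = a then v h.choose else 0
  have hw : ∀ z, w (e z) = v z := by
    intro z
    have h1 : ∃ z', e z' = e z := ⟨z, rfl⟩
    simp only [w, dif_pos h1]
    rw [he.inj h1.choose_spec]
  have hw0 : ∀ a, c a ≠ i → w a = 0 := by
    intro a ha
    simp only [w]
    rw [dif_neg]
    rintro ⟨z, rfl⟩
    exact ha (he.col z)
  refine ⟨w, ?_, ?_⟩
  · intro hw1
    apply hv
    funext z
    rw [← hw z, hw1]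
    rfl
  · funext a
    show ∑ b, Q a b * w b = 0
    by_cases ha : c a = i
    · obtain ⟨x, rfl⟩ := he.surj a ha
      rw [sum_enum he (fun b => Q (e x) b * w b) fun b hb => by
        show Q (e x) b * w b = 0
        rw [hw0 b hb, mul_zero]]
      have h2 := congrFun hv0 x
      simp only [hw]
      exact h2
    · refine Finset.sum_eq_zero fun b _ => ?_
      by_cases hb : c b = i
      · rw [hQ a b (by rw [hb]; exact ha), zero_mul]
      · rw [hw0 b hb, mul_zero]

theorem blk_skew {F : Type} [Field F] (he : Enum c e i) {Q X : Matrix (Fin n) (Fin n) F}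
    (hQ : BD c Q) (hX : BD c X) (h : Xᵀ * Q + Q * X = 0) :
    SpLie (Q.submatrix e e) (X.submatrix e e) := by
  unfold SpLie
  have h1 := congrArg (fun A => A.submatrix e e) h
  simp only [Matrix.submatrix_add, Pi.add_apply] at h1
  rw [blk_mul he (bd_transpose hX), blk_mul he hQ] at h1
  rw [Matrix.transpose_submatrix]
  rw [h1]
  rfl

end blocks

section reps

variable {ℓ : ℕ} [hℓ : Fact ℓ.Prime] {n r : ℕ} {c : Fin n → Fin r} {N : Fin r → ℕ}
  {e : ∀ i, Fin (N i) → Fin n} {Γ : Type} [Group Γ] {β : Γ →* Matrix (Fin n) (Fin n) ℤ_[ℓ]}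

/-- the representation on a block -/
def brep (hb : ∀ s, BD c (β s)) {k : ℕ} {e : Fin k → Fin n} {i : Fin r} (he : Enum c e i) :
    Γ →* Matrix (Fin k) (Fin k) ℚ_[ℓ] where
  toFun s := (qm (β s)).submatrix e e
  map_one' := by rw [map_one, qm_one, submatrix_one e he.inj]
  map_mul' s t := by
    rw [map_mul, qm_mul]
    exact blk_mul he (fun a b hab => by
      unfold qm
      rw [Matrix.map_apply, hb s a b hab, map_zero]) _

theorem brep_apply (hb : ∀ s, BD c (β s)) {k : ℕ} {e : Fin k → Fin n} {i : Fin r}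
    (he : Enum c e i) (s : Γ) : brep hb he s = (qm (β s)).submatrix e e := rfl

theorem brep_cont [TopologicalSpace Γ] (hβ : Continuous β) (hb : ∀ s, BD c (β s)) {k : ℕ}
    {e : Fin k → Fin n} {i : Fin r} (he : Enum c e i) : Continuous (brep hb he) := by
  have h1 : Continuous fun s => qm (β s) := Pool.Agent.R932.continuous_qm.comp hβ
  exact h1.matrix_submatrix e e

theorem qbd (hb : ∀ s, BD c (β s)) (s : Γ) : BD c (qm (β s)) := by
  intro a b hab
  unfold qm
  rw [Matrix.map_apply, hb s a b hab, map_zero]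

theorem brep_iso {T : HS n} (hg : GalT c T.Q β) (hQ : BD c T.Q) {k : ℕ} {e : Fin k → Fin n}
    {i : Fin r} (he : Enum c e i) (s : Γ) :
    (brep hg.bd he s)ᵀ * (T.Q.submatrix e e).map (algebraMap ℚ ℚ_[ℓ]) * brep hg.bd he s =
      (T.Q.submatrix e e).map (algebraMap ℚ ℚ_[ℓ]) := by
  have h1 := congrArg (fun A => A.submatrix e e) (hg.form s)
  have h2 : BD c ((qm (β s))ᵀ) := bd_transpose (qbd hg.bd s)
  have h3 : BD c (T.Q.map (algebraMap ℚ ℚ_[ℓ])) := bd_map _ hQ
  have h4 : BD c ((qm (β s))ᵀ * T.Q.map (algebraMap ℚ ℚ_[ℓ])) := by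
    intro a b hab
    rw [Matrix.mul_apply]
    refine Finset.sum_eq_zero fun d _ => ?_
    by_cases had : c a = c d
    · rw [h3 d b (by rw [← had]; exact hab), mul_zero]
    · rw [h2 a d had, zero_mul]
  rw [blk_mul he h4, blk_mul he h2] at h1
  rw [brep_apply, Matrix.transpose_submatrix]
  exact h1

/-- from the full joint Lie algebra to the Mumford-Tate conjecture -/
theorem mtc_of_joint [TopologicalSpace Γ] [IsTopologicalGroup Γ] [CompactSpace Γ] {κ : Type}
    [Fintype κ] [DecidableEq κ] {T : HS n} {p q : Fin r → ℕ} {v : Γ →* Matrix κ κ ℚ_[ℓ]}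
    (hB : T.Big c p q) (hv : Continuous v) (hvf : (Set.range v).Finite) (hβ : Continuous β)
    (hg : GalT c T.Q β) (he : ∀ i, Enum c (e i) i)
    (hfull : ∀ X : ∀ i, Matrix (Fin (N i)) (Fin (N i)) ℚ_[ℓ],
      (∀ i, SpLie ((T.Q.submatrix (e i) (e i)).map (algebraMap ℚ ℚ_[ℓ])) (X i)) →
      JTan ℓ (fun i => brep hg.bd (he i)) X) :
    MTC (hM (fun _ => (1 : Matrix κ κ ℂ)) T) (tot v β) := by
  have hcont : Continuous (tot v β) := by
    show Continuous fun s => (fromBlocks (v s) 0 0 (qm (β s)) :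
      Matrix (κ ⊕ Fin n) (κ ⊕ Fin n) ℚ_[ℓ])
    exact hv.matrix_fromBlocks continuous_const continuous_const
      (Pool.Agent.R932.continuous_qm.comp hβ)
  have htan : Pool.Agent.R932.TanIn c T v β := by
    refine Pool.Agent.R932.tanIn_of_finite (Pool.Agent.R932.continuous_qm.comp hβ) hv hvf
      fun X hX hXb => ?_
    obtain ⟨σ, hσ⟩ := hfull (fun i => X.submatrix (e i) (e i)) fun i => by
      have h1 := blk_skew (he i) (bd_map (algebraMap ℚ ℚ_[ℓ]) hB.bQ) hXb hX
      exact h1
    refine ⟨σ, tendsto_pi_nhds.2 fun a => tendsto_pi_nhds.2 fun b => ?_⟩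
    by_cases hab : c a = c b
    · obtain ⟨x, hx⟩ := (he (c a)).surj a rfl
      obtain ⟨y, hy⟩ := (he (c a)).surj b hab.symm
      have h1 := (tendsto_pi_nhds.1 (tendsto_pi_nhds.1 (hσ (c a)) x)) y
      have h2 : (X.submatrix (e (c a)) (e (c a))) x y = X a b := by
        rw [submatrix_apply, hx, hy]
      have h1' : Tendsto (fun m : ℕ => (((ℓ : ℚ_[ℓ]) ^ m)⁻¹ • (brep hg.bd (he (c a)) (σ m) - 1)) x y)
          atTop (𝓝 (X a b)) := by
        rw [← h2]
        exact h1
      refine h1'.congr fun m => ?_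
      rw [Matrix.smul_apply, Matrix.smul_apply, Matrix.sub_apply, Matrix.sub_apply, brep_apply,
        submatrix_apply, hx, hy, Matrix.one_apply, Matrix.one_apply]
      have h3 : (x = y) ↔ (a = b) :=
        ⟨fun h => hx.symm.trans ((congrArg (e (c a)) h).trans hy),
          fun h => (he (c a)).inj (hx.trans (h.trans hy.symm))⟩
      simp only [h3]
    · have h1 : X a b = 0 := hXb a b hab
      rw [h1]
      refine tendsto_const_nhds.congr fun m => ?_
      rw [Matrix.smul_apply, Matrix.sub_apply, qbd hg.bd (σ m) a b hab,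
        Matrix.one_apply_ne (by rintro rfl; exact hab rfl), sub_zero, smul_zero]
  have hso : Pool.Agent.R932.SoIn c T v β := Pool.Agent.R932.soIn_of_tan hB.bQ hcont htan
  exact (Pool.Agent.R932.main' hB (fun _ _ => by rw [Matrix.det_one]; exact one_ne_zero) star_N hg
    hso).2 (MTC_N hvf)

end reps

end

end Pool.Agent.W5h21.MH
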