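import Pool.Agent.R932.PO.Top

/-!
# Large primes outside a set of density zero
-/

set_option autoImplicit false

open Filter Topology

namespace Pool.Agent.W5h21.MH

theorem not_dens_primes : ¬ Y142.ZI.DensityZero {ℓ : ℕ | ℓ.Prime} := by
  intro h
  have h1 : ∀ n : ℕ, Nat.card {ℓ : ℕ // ℓ ≤ n ∧ ℓ ∈ {ℓ : ℕ | ℓ.Prime}} = Nat.primeCounting n := by
    intro n
    rw [Nat.primeCounting, Nat.primeCounting', Nat.count_eq_card_filter_range]
    refine Nat.subtype_card _ fun k => ?_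
    rw [Finset.mem_filter, Finset.mem_range, Nat.lt_succ_iff]
    exact Iff.rfl
  unfold Y142.ZI.DensityZero at h
  simp only [h1] at h
  have h2 : Tendsto (fun n : ℕ => ((Nat.primeCounting n : ℝ) / (Nat.primeCounting n : ℝ))) atTop
      (𝓝 1) := by
    refine tendsto_const_nhds.congr' ?_
    filter_upwards [Nat.tendsto_primeCounting.eventually_ge_atTop 1] with n hn
    rw [div_self]
    have : (1 : ℝ) ≤ (Nat.primeCounting n : ℝ) := by exact_mod_cast hn
    positivity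
  exact zero_ne_one (tendsto_nhds_unique h h2)

theorem exists_large {A : Set ℕ} (hA : Y142.ZI.DensityZero A) (b : ℕ) :
    ∃ ℓ : ℕ, ℓ.Prime ∧ b < ℓ ∧ ℓ ∉ A := by
  by_contra hcon
  push Not at hcon
  refine not_dens_primes ((hA.union (Pool.Agent.R932.PO.dens_bdd (A := {ℓ | ℓ ≤ b})
    fun ℓ h => h)).mono ?_)
  intro ℓ hℓ
  by_cases h : b < ℓ
  · exact Or.inl (hcon ℓ hℓ h)
  · exact Or.inr (not_lt.1 h)

theorem val_zero {a : ℚ} (ha : a ≠ 0) {ℓ : ℕ} [hℓ : Fact ℓ.Prime] (h1 : a.num.natAbs < ℓ)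
    (h2 : a.den < ℓ) : Padic.valuation ((a : ℚ) : ℚ_[ℓ]) = 0 := by
  rw [Padic.valuation_ratCast, padicValRat]
  have h3 : padicValInt ℓ a.num = 0 := by
    rw [padicValInt]
    refine padicValNat.eq_zero_of_not_dvd fun hd => ?_
    have h4 := Nat.le_of_dvd (Int.natAbs_pos.2 (Rat.num_ne_zero.2 ha)) hd
    omega
  have h4 : padicValNat ℓ a.den = 0 := by
    refine padicValNat.eq_zero_of_not_dvd fun hd => ?_
    have h5 := Nat.le_of_dvd a.den_pos hd
    omega
  rw [h3, h4]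
  simp

end Pool.Agent.W5h21.MH
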