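import Pool.Agent.W5h21.MH.Pr
import Pool.Agent.W5h21.MH.Ex
import Pool.Agent.R932.MtEven

/-!
# Several orthogonal systems: full joint Lie algebra at a set of primes of density one
-/

set_option autoImplicit false
set_option linter.unusedSectionVars false
set_option linter.style.haveILetI false

open Matrix Polynomial Filter Topology NumberField IsDedekindDomain
open Pool.Agent.Y142.ZO Pool.Agent.Y142.ZI
open Pool.Agent.Y142.ZS (NiceP GenP Sim SpLie)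
open Pool.Agent.Y142.SS Pool.Agent.Y142.SI Pool.Agent.Y142.SU
open Pool.Agent.R932.PO (JTan IsForm skew_sp dens_bdd dens_iUnion)
open Pool.Agent.R932 (density_odd density_even)

namespace Pool.Agent.W5h21.MH

section

variable {K : Type} [Field K] [NumberField K]

/-- the conditions on the Frobenius polynomials for odd rank -/
def OddC (S : Set (HeightOneSpectrum (𝓞 K))) (P : HeightOneSpectrum (𝓞 K) → ℚ[X]) (N : ℕ) : Prop :=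
  Odd N ∧ ∃ (v₀ v₁ : HeightOneSpectrum (𝓞 K)) (Q₀ Q₁ : ℚ[X]), GoodPlace S P v₀ Q₀ ∧
    (∀ x y z : ℂ, aeval x Q₀ = 0 → aeval y Q₀ = 0 → aeval z Q₀ = 0 → x * y ≠ z) ∧
    GoodPlace S P v₁ Q₁ ∧ ¬ IsSquare (Q₀.eval 1 * Q₀.eval (-1) * (Q₁.eval 1 * Q₁.eval (-1))) ∧
    ∃ (m : ℕ) (u : Fin (m + 1) → HeightOneSpectrum (𝓞 K)), (∀ i, NiceP S P (u i)) ∧
      ∀ (g : GK ℚ) (d : ℕ), 2 ≤ d → (d = 2 ∨ d + 2 ≤ N) → ∃ v, NiceP S P v ∧
        ∃ w ∈ NoSet d (P v), w⁻¹ * g ∈ Subgroup.closure (⋃ i, Fix (P (u i)))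

/-- the conditions on the Frobenius polynomials for even rank -/
def EvenC (S : Set (HeightOneSpectrum (𝓞 K))) (P : HeightOneSpectrum (𝓞 K) → ℚ[X]) (N : ℕ) :
    Prop :=
  Even N ∧ ∃ w₀ : HeightOneSpectrum (𝓞 K), GenP S P (fun _ => 1) w₀ ∧
    ∃ (m : ℕ) (u : Fin (m + 1) → HeightOneSpectrum (𝓞 K)), (∀ i, NiceP S P (u i)) ∧
      (∀ (g : GK ℚ) (d : ℕ), 0 < d → d < N → ∃ v, NiceP S P v ∧
        ∃ w ∈ NoSet d (P v), w⁻¹ * g ∈ Subgroup.closure (⋃ i, Fix (P (u i)))) ∧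
      ∀ g : GK ℚ, ∃ v, NiceP S P v ∧ ∃ w : GK ℚ, (∃ x : QQ, aeval x (P v) = 0 ∧ w x = x) ∧
        w⁻¹ * g ∈ Subgroup.closure (⋃ i, Fix (P (u i)))

variable {S : Set (HeightOneSpectrum (𝓞 K))}

/-- one system -/
theorem block_dens {N : ℕ} {P : HeightOneSpectrum (𝓞 K) → ℚ[X]} (hN : 0 < N) (hS : S.Finite)
    (ρ : ∀ (ℓ : ℕ) [Fact ℓ.Prime], GK K →* Matrix (Fin N) (Fin N) ℚ_[ℓ])
    (B : ∀ (ℓ : ℕ) [Fact ℓ.Prime], Matrix (Fin N) (Fin N) ℚ_[ℓ])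
    (hsys : ∀ (ℓ : ℕ) [Fact ℓ.Prime], Orthogonal K N ℓ (ρ ℓ) (B ℓ) S P)
    (h : OddC S P N ∨ EvenC S P N) :
    Y142.ZI.DensityZero {ℓ | ∃ _ : Fact ℓ.Prime,
      ¬ ∀ X, SpLie (B ℓ) X → IsTangent ℓ (ρ ℓ) X} := by
  rcases h with ⟨hn, v₀, v₁, Q₀, Q₁, hv₀, h0, hv₁, hsq, m, u, hu, hI⟩ |
    ⟨hn, w₀, hw₀, m, u, hu, hI, hII⟩
  · have hALG : Y142.ZO.S_ALG := Y142.ZO.alg_main
    have hISO : Y142.ZO.S_ISO := Y337.ZO.iso_t
    have hLINE : Y142.ZO.S_LINE := Y337.ZO.line_t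
    have hTAN : Y142.ZO.S_TAN := Y708.ZO.t
    have hLOG : Y142.ZO.S_LOG := Y497.ZO.log
    have hEXP : Y142.ZO.S_EXP := Y497.ZO.exp
    have hPOW : Y142.ZO.S_POW := Y497.ZO.pow
    have hSPEC : Y142.ZO.S_SPEC := Y96.ZO.t
    have hAPP : Y142.ZO.S_APP := Y815.ZO.t Y337.ZO.det_t Y337.ZO.qz_t hLOG
    have hFROB : Y142.ZO.S_FROB := Y405.ZO.t
    have hBAD : Y142.ZO.S_BAD := Y458.ZO.bad hISO hLINE
    have hVAL : Y142.ZO.S_VAL := Y405.ZO.t1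
    have hDENS : Y142.ZO.S_DENS := Y394.ZO.t1
    have hINF : Y142.ZO.S_INF := Y394.ZO.t2
    have hINT : Y142.ZI.S_INT := Y484.ZI.t1
    have hCHEB : Y142.ZI.S_CHEB := Y726.ZI.t1
    have hDENS2 : Y142.ZI.S_DENS2 := Y681.ZI.t hCHEB
    have hMULTI : Y142.ZI.S_MULTI := Y537.ZI.t
    have hLF : Y142.SS.S_LF := Y255.SS.t
    have hCF : Y142.SS.S_CF := Y297.SS.t hLF
    have hLOC : Y142.SS.S_LOC := Y708.SS.Loc.t hCF
    have hLOGR : Y142.SS.S_LOGR := Y936.SS.t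
    have hKRS : Y142.SS.S_KRS := Y518.SS.t
    have hCHARA : Y142.SS.S_CHARA := Y737.SS.Chara.t
    have hBADD : Y142.ZD.S_BADD := Y614.ZD.t
    have hSUB : Y142.ZD.S_SUB := Y100.ZD.t
    refine Y142.ZI.DensityZero.mono (density_odd hALG hISO hLINE hTAN hLOG hEXP hPOW hSPEC hAPP
      hFROB hBAD hVAL hDENS hINF hLOC hLOGR hKRS hCHARA hMULTI hINT hDENS2 hBADD hSUB hn hS hv₀ h0
      hv₁ hsq ρ B hsys u hu hI) ?_
    rintro ℓ ⟨hp, hno⟩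
    exact ⟨hp, fun hfull => hno fun X hX => hfull X ((skew_sp (hsys ℓ).2.1).2 hX)⟩
  · refine Y142.ZI.DensityZero.mono (density_even hN hS (MonoidHom.id (GK K)) continuous_id ρ
      (fun ℓ _ => ⟨(hsys ℓ).1, fun v hv hvℓ σ hσ => (hsys ℓ).2.2.2.2 v hv hvℓ σ hσ⟩) B
      (fun ℓ _ => ⟨Or.inl (hsys ℓ).2.1, (hsys ℓ).2.2.1, fun γ => ⟨1, ?_⟩, fun v _ _ σ _ => ?_⟩)
      hw₀ u hu hI hII) ?_
    · have h1 : (ρ ℓ γ)ᵀ * B ℓ * ρ ℓ γ = B ℓ := (hsys ℓ).2.2.2.1 γ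
      show (ρ ℓ γ)ᵀ * B ℓ * ρ ℓ γ = (1 : ℚ_[ℓ]) • B ℓ
      rw [one_smul]
      exact h1
    · have h1 : (ρ ℓ σ⁻¹)ᵀ * B ℓ * ρ ℓ σ⁻¹ = B ℓ := (hsys ℓ).2.2.2.1 σ⁻¹
      show (ρ ℓ σ⁻¹)ᵀ * B ℓ * ρ ℓ σ⁻¹ = ((1 : ℚ) : ℚ_[ℓ]) • B ℓ
      rw [Rat.cast_one, one_smul]
      exact h1
    · rintro ℓ ⟨hp, hno⟩
      exact ⟨hp, fun hfull => hno fun X hX => hfull X hX⟩

/-- several systems -/
theorem joint_dens {ι : Type} [Fintype ι] [DecidableEq ι] {N : ι → ℕ}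
    {P : ι → HeightOneSpectrum (𝓞 K) → ℚ[X]} (hN : ∀ i, 5 ≤ N i) (hS : S.Finite)
    (ρ : ∀ (i : ι) (ℓ : ℕ) [Fact ℓ.Prime], GK K →* Matrix (Fin (N i)) (Fin (N i)) ℚ_[ℓ])
    (B : ∀ (i : ι) (ℓ : ℕ) [Fact ℓ.Prime], Matrix (Fin (N i)) (Fin (N i)) ℚ_[ℓ])
    (hsys : ∀ (i : ι) (ℓ : ℕ) [Fact ℓ.Prime], Orthogonal K (N i) ℓ (ρ i ℓ) (B i ℓ) S (P i))
    (h : ∀ i, OddC S (P i) (N i) ∨ EvenC S (P i) (N i))
    (hsep : ∀ i j, i ≠ j → N i = N j → ∃ v, v ∉ S ∧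
      (P i v).coeff (N i - 2) ≠ (P j v).coeff (N j - 2)) :
    Y142.ZI.DensityZero {ℓ | ∃ _ : Fact ℓ.Prime,
      ¬ ∀ X, (∀ i, SpLie (B i ℓ) (X i)) → JTan ℓ (fun i => ρ i ℓ) X} := by
  classical
  -- a bound for the places
  obtain ⟨b, hb⟩ : ∃ b : ℕ, ∀ i j, i ≠ j → N i = N j → ∃ v, v ∉ S ∧
      Ideal.absNorm v.asIdeal ≤ b ∧ (P i v).coeff (N i - 2) ≠ (P j v).coeff (N j - 2) := by
    choose v hvS hv using hsep
    refine ⟨Finset.univ.sup fun x : ι × ι =>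
      if h : x.1 ≠ x.2 ∧ N x.1 = N x.2 then Ideal.absNorm (v x.1 x.2 h.1 h.2).asIdeal else 0,
      fun i j hij hN => ⟨v i j hij hN, hvS i j hij hN, ?_, hv i j hij hN⟩⟩
    have h1 := Finset.le_sup (f := fun x : ι × ι =>
      if h : x.1 ≠ x.2 ∧ N x.1 = N x.2 then Ideal.absNorm (v x.1 x.2 h.1 h.2).asIdeal else 0)
      (Finset.mem_univ (i, j))
    have h2 : i ≠ j ∧ N i = N j := ⟨hij, hN⟩
    simp only [dif_pos h2] at h1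
    exact h1
  have h1 : Y142.ZI.DensityZero {ℓ | ∃ i, ℓ ∈ {ℓ | ∃ _ : Fact ℓ.Prime,
      ¬ ∀ X, SpLie (B i ℓ) X → IsTangent ℓ (ρ i ℓ) X}} :=
    dens_iUnion fun i => block_dens (by have := hN i; omega) hS (ρ i) (B i) (hsys i) (h i)
  refine (h1.union (dens_bdd (A := {ℓ | ℓ ≤ b}) fun ℓ h => h)).mono ?_
  rintro ℓ ⟨hp, hno⟩
  by_contra hcon
  rw [Set.mem_union, not_or] at hcon
  obtain ⟨h2, h3⟩ := hcon
  have hlt : b < ℓ := not_le.1 h3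
  apply hno
  have hfull : ∀ i X, SpLie (B i ℓ) X → IsTangent ℓ (ρ i ℓ) X := by
    intro i
    by_contra h4
    exact h2 ⟨i, hp, h4⟩
  refine joint_so (ρ := fun i => ρ i ℓ) (J := fun i => B i ℓ) (fun i => (hsys i ℓ).1)
    (fun i => ⟨Or.inl ⟨(hsys i ℓ).2.1, hN i⟩, (hsys i ℓ).2.2.1⟩) (fun i => by
      have := hN i
      omega) (fun i => (hsys i ℓ).2.1) (fun i g => (hsys i ℓ).2.2.2.1 g) hfull ?_
  intro i j hij
  by_cases hNN : N i = N j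
  · obtain ⟨v, hvS, hvb, hv⟩ := hb i j hij hNN
    have hvℓ := not_mem_of_lt v hp.out (lt_of_le_of_lt hvb hlt)
    obtain ⟨σ, hσ⟩ := Pool.Agent.W401.Frob.exists_frob v
    refine ⟨σ⁻¹, ?_⟩
    have h4 : ∀ k, (ρ k ℓ σ⁻¹).trace ^ 2 - (ρ k ℓ σ⁻¹ * ρ k ℓ σ⁻¹).trace =
        2 * (algebraMap ℚ ℚ_[ℓ] ((P k v).coeff (N k - 2))) := by
      intro k
      rw [← coeff_charpoly (by have := hN k; omega), (hsys k ℓ).2.2.2.2 v hvS hvℓ σ hσ,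
        Polynomial.coeff_map]
    rw [h4 i, h4 j]
    intro h5
    apply hv
    apply (algebraMap ℚ ℚ_[ℓ]).injective
    exact mul_left_cancel₀ two_ne_zero h5
  · refine ⟨1, ?_⟩
    have h4 : ∀ k, (ρ k ℓ 1).trace ^ 2 - (ρ k ℓ 1 * ρ k ℓ 1).trace =
        ((N k * (N k - 1) : ℕ) : ℚ_[ℓ]) := by
      intro k
      have h5 : 1 ≤ N k := by
        have := hN k
        omega
      rw [map_one, mul_one, trace_one, Fintype.card_fin]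
      push_cast [h5]
      ring
    rw [h4 i, h4 j]
    intro h5
    have h6 : N i * (N i - 1) = N j * (N j - 1) := by exact_mod_cast h5
    apply hNN
    have hi := hN i
    have hj := hN j
    rcases lt_trichotomy (N i) (N j) with h7 | h7 | h7
    · exfalso
      have h8 : N i * (N i - 1) < N j * (N j - 1) :=
        Nat.mul_lt_mul_of_lt_of_le h7 (by omega) (by omega)
      omega
    · exact h7
    · exfalso
      have h8 : N j * (N j - 1) < N i * (N i - 1) :=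
        Nat.mul_lt_mul_of_lt_of_le h7 (by omega) (by omega)
      omega

end

end Pool.Agent.W5h21.MH
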