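import Pool.Agent.W5h21.MH.Blk
import Pool.Agent.W5h21.MH.Joint
import Pool.Agent.R932.PO.Fin2

/-!
# The Mumford-Tate conjecture for a sum of several pieces
-/

set_option autoImplicit false
set_option linter.unusedSectionVars false
set_option linter.style.haveILetI false

open Matrix Polynomial Filter Topology NumberField IsDedekindDomain
open Pool.Agent.Y142.ZO Pool.Agent.Y142.ZI
open Pool.Agent.Y142.ZS (SpLie)
open Pool.Agent.Y95.MT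
open Pool.Agent.W544.PG (HS BD Enum)
open Pool.Agent.R932.PO (JTan IsForm Kind Fits Allows Sys det_map_ne)
open Pool.Agent.R932.EV (SS SC)

namespace Pool.Agent.W5h21.MH

noncomputable section

section

variable {K : Type} [Field K] [NumberField K] {n r : ℕ} {c : Fin n → Fin r} {N : Fin r → ℕ}
  {e : ∀ i, Fin (N i) → Fin n} {S : Set (HeightOneSpectrum (𝓞 K))}
  {P : Fin r → HeightOneSpectrum (𝓞 K) → ℚ[X]} {Γ : Type} [Group Γ] [TopologicalSpace Γ]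
  [IsTopologicalGroup Γ] [CompactSpace Γ] {s : GK K →* Γ} {T : HS n} {p q : Fin r → ℕ}
  {κ : Type} [Fintype κ] [DecidableEq κ]

/-- the representation on `T` at one prime -/
structure RepB (s : GK K →* Γ) (T : HS n) (c : Fin n → Fin r) (e : ∀ i, Fin (N i) → Fin n)
    (S : Set (HeightOneSpectrum (𝓞 K))) (P : Fin r → HeightOneSpectrum (𝓞 K) → ℚ[X]) (ℓ : ℕ)
    [Fact ℓ.Prime] (β : Γ →* Matrix (Fin n) (Fin n) ℤ_[ℓ]) : Prop where
  cont : Continuous β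
  gal : GalT c T.Q β
  frob : ∀ i, ∀ v ∉ S, (ℓ : 𝓞 K) ∉ v.asIdeal → ∀ σ : GK K, IsFrobenius v σ →
    ((qm (β (s σ⁻¹))).submatrix (e i) (e i)).charpoly = (P i v).map (algebraMap ℚ ℚ_[ℓ])

/-- the form on a piece -/
abbrev bform (T : HS n) {k : ℕ} (e : Fin k → Fin n) (ℓ : ℕ) [Fact ℓ.Prime] :
    Matrix (Fin k) (Fin k) ℚ_[ℓ] :=
  (T.Q.submatrix e e).map (algebraMap ℚ ℚ_[ℓ])

theorem bform_symm {k : ℕ} (e : Fin k → Fin n) (ℓ : ℕ) [Fact ℓ.Prime] :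
    (bform T e ℓ)ᵀ = bform T e ℓ := by
  show ((T.Q.submatrix e e).map (algebraMap ℚ ℚ_[ℓ]))ᵀ = _
  rw [← Matrix.transpose_map, Matrix.transpose_submatrix, T.symm]

theorem bform_det (hQ : BD c T.Q) {k : ℕ} {e : Fin k → Fin n} {i : Fin r} (he : Enum c e i) (ℓ : ℕ)
    [Fact ℓ.Prime] : (bform T e ℓ).det ≠ 0 :=
  det_map_ne _ (blk_det he hQ (W74.PG.det_ne T))

theorem RepB.orth {ℓ : ℕ} [Fact ℓ.Prime] {β : Γ →* Matrix (Fin n) (Fin n) ℤ_[ℓ]}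
    (h : RepB s T c e S P ℓ β) (hs : Continuous s) (hQ : BD c T.Q) (he : ∀ i, Enum c (e i) i)
    (i : Fin r) :
    Orthogonal K (N i) ℓ ((brep h.gal.bd (he i)).comp s) (bform T (e i) ℓ) S (P i) :=
  ⟨(brep_cont h.cont h.gal.bd (he i)).comp hs, bform_symm (e i) ℓ, bform_det hQ (he i) ℓ,
    fun g => brep_iso h.gal hQ (he i) (s g), fun v hv hvℓ σ hσ => h.frob i v hv hvℓ σ hσ⟩

/-- the kind of a piece -/
def kd (N : ℕ) : Kind := if Odd N then .odd else .even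

theorem kd_fits {F : Type} [Field F] {N : ℕ} (hN : 5 ≤ N ∧ N ≠ 6) {J : Matrix (Fin N) (Fin N) F}
    (hJ : Jᵀ = J) : Fits (kd N) J := by
  unfold kd
  by_cases h : Odd N
  · rw [if_pos h]
    exact ⟨hJ, h, hN.1⟩
  · rw [if_neg h]
    have h1 : Even N := Nat.not_odd_iff_even.1 h
    refine ⟨hJ, h1, ?_⟩
    obtain ⟨k, hk⟩ := h1
    have := hN.1
    have := hN.2
    omega

theorem RepB.sys {ℓ : ℕ} [Fact ℓ.Prime] {β : Γ →* Matrix (Fin n) (Fin n) ℤ_[ℓ]}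
    (h : RepB s T c e S P ℓ β) (hQ : BD c T.Q) (he : ∀ i, Enum c (e i) i)
    (hN : ∀ i, 5 ≤ N i ∧ N i ≠ 6) (i : Fin r) :
    Sys s (kd (N i)) (N i) ℓ (brep h.gal.bd (he i)) (bform T (e i) ℓ) S (P i) (fun _ => 1) := by
  refine ⟨brep_cont h.cont h.gal.bd (he i), kd_fits (hN i) (bform_symm (e i) ℓ),
    bform_det hQ (he i) ℓ, fun γ => ⟨1, ?_, fun _ => rfl⟩, fun v hv hvℓ σ hσ => ⟨?_, ?_⟩⟩
  · rw [one_smul]
    exact brep_iso h.gal hQ (he i) γ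
  · exact h.frob i v hv hvℓ σ hσ
  · rw [Rat.cast_one, one_smul]
    exact brep_iso h.gal hQ (he i) (s σ⁻¹)

/-- the prime numbers which are allowed -/
theorem allows_large (hQ : BD c T.Q) (he : ∀ i, Enum c (e i) i) (hN : ∀ i, 5 ≤ N i ∧ N i ≠ 6) :
    ∃ b : ℕ, ∀ (ℓ : ℕ) [Fact ℓ.Prime], b < ℓ → ∀ i, Allows (kd (N i)) (N i) ℓ (bform T (e i) ℓ) := by
  classical
  let a : Fin r → ℚ := fun i => (T.Q.submatrix (e i) (e i)).det
  have ha : ∀ i, a i ≠ 0 := fun i => blk_det (he i) hQ (W74.PG.det_ne T)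
  refine ⟨Finset.univ.sup fun i => N i * N i + (a i).num.natAbs + (a i).den, ?_⟩
  intro ℓ hℓ hb i
  have h1 : N i * N i + (a i).num.natAbs + (a i).den < ℓ :=
    lt_of_le_of_lt (Finset.le_sup (f := fun i => N i * N i + (a i).num.natAbs + (a i).den)
      (Finset.mem_univ i)) hb
  have h5 := (hN i).1
  have h6 := (hN i).2
  have hNN : N i ≤ N i * N i := Nat.le_mul_self _
  unfold kd
  by_cases h : Odd (N i)
  · rw [if_pos h]
    intro hd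
    have := Nat.le_of_dvd (by omega) hd
    omega
  · rw [if_neg h]
    constructor
    · intro hd
      have h7 : 0 < (N i - 2) * (N i - 4) := Nat.mul_pos (by omega) (by omega)
      have h8 := Nat.le_of_dvd h7 hd
      have h9 : (N i - 2) * (N i - 4) ≤ N i * N i := Nat.mul_le_mul (by omega) (by omega)
      omega
    · have h7 : (bform T (e i) ℓ).det = ((a i : ℚ) : ℚ_[ℓ]) := by
        show ((T.Q.submatrix (e i) (e i)).map (algebraMap ℚ ℚ_[ℓ])).det = _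
        have h8 := RingHom.map_det (algebraMap ℚ ℚ_[ℓ]) (T.Q.submatrix (e i) (e i))
        rw [RingHom.mapMatrix_apply] at h8
        rw [← h8]
        rfl
      rw [h7, val_zero (ha i) (by omega) (by omega)]
      exact Even.zero

theorem mtc_of_comp {ℓ : ℕ} [Fact ℓ.Prime] {β : Γ →* Matrix (Fin n) (Fin n) ℤ_[ℓ]}
    {v : Γ →* Matrix κ κ ℚ_[ℓ]} (hB : T.Big c p q) (hv : Continuous v)
    (hvf : (Set.range v).Finite) (h : RepB s T c e S P ℓ β) (he : ∀ i, Enum c (e i) i)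
    (hfull : ∀ X, (∀ i, SpLie (bform T (e i) ℓ) (X i)) →
      JTan ℓ (fun i => (brep h.gal.bd (he i)).comp s) X) :
    MTC (hM (fun _ => (1 : Matrix κ κ ℂ)) T) (tot v β) := by
  refine mtc_of_joint hB hv hvf h.cont h.gal he fun X hX => ?_
  obtain ⟨σ, hσ⟩ := hfull X hX
  exact ⟨fun k => s (σ k), hσ⟩

/-- **several pieces, from Frobenius polynomials** -/
theorem main_pieces (hB : T.Big c p q) (he : ∀ i, Enum c (e i) i)
    (hN : ∀ i, 5 ≤ N i ∧ N i ≠ 6) (hS : S.Finite) (hs : Continuous s)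
    (α : ∀ (ℓ : ℕ) [Fact ℓ.Prime], Γ →* Matrix κ κ ℚ_[ℓ])
    (hα : ∀ (ℓ : ℕ) [Fact ℓ.Prime], Continuous (α ℓ) ∧ (Set.range (α ℓ)).Finite)
    (β : ∀ (ℓ : ℕ) [Fact ℓ.Prime], Γ →* Matrix (Fin n) (Fin n) ℤ_[ℓ])
    (hβ : ∀ (ℓ : ℕ) [Fact ℓ.Prime], RepB s T c e S P ℓ (β ℓ))
    (h : ∀ i, OddC S (P i) (N i) ∨ EvenC S (P i) (N i))
    (hsep : ∀ i j, i ≠ j → N i = N j → ∃ v, v ∉ S ∧
      (P i v).coeff (N i - 2) ≠ (P j v).coeff (N j - 2)) :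
    Y142.ZI.DensityZero {ℓ | ∃ _ : Fact ℓ.Prime,
      ¬ MTC (hM (fun _ => (1 : Matrix κ κ ℂ)) T) (tot (α ℓ) (β ℓ))} ∧
    ∀ (ℓ : ℕ) [Fact ℓ.Prime], (∀ i, SS (brep (hβ ℓ).gal.bd (he i))) →
      (∀ i, SC (brep (hβ ℓ).gal.bd (he i))) →
      MTC (hM (fun _ => (1 : Matrix κ κ ℂ)) T) (tot (α ℓ) (β ℓ)) := by
  have hd := joint_dens (fun i => (hN i).1) hS
    (fun i ℓ _ => (brep (hβ ℓ).gal.bd (he i)).comp s) (fun i ℓ _ => bform T (e i) ℓ)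
    (fun i ℓ _ => (hβ ℓ).orth hs hB.bQ he i) h hsep
  constructor
  · refine hd.mono ?_
    rintro ℓ ⟨hp, hno⟩
    exact ⟨hp, fun hfull => hno (mtc_of_comp hB (hα ℓ).1 (hα ℓ).2 (hβ ℓ) he hfull)⟩
  · intro ℓ hℓ hss hsc
    obtain ⟨b, hb⟩ := allows_large hB.bQ he hN
    obtain ⟨ℓ₀, hp₀, hbℓ₀, hℓ₀⟩ := exists_large hd b
    haveI : Fact ℓ₀.Prime := ⟨hp₀⟩
    have hfull₀ : ∀ X, (∀ i, SpLie (bform T (e i) ℓ₀) (X i)) →
        JTan ℓ₀ (fun i => (brep (hβ ℓ₀).gal.bd (he i)).comp s) X := by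
      by_contra hcon
      exact hℓ₀ ⟨⟨hp₀⟩, hcon⟩
    have hsev := (Pool.Agent.R932.PO.several (K := K) Pool.Agent.R932.PO.tasks hs hS
      (fun i ℓ _ => brep (hβ ℓ).gal.bd (he i)) (fun i ℓ _ => bform T (e i) ℓ)
      (fun i ℓ _ => (hβ ℓ).sys hB.bQ he hN i) ℓ₀ (hb ℓ₀ hbℓ₀) hfull₀).2 ℓ hss hsc
    exact mtc_of_joint hB (hα ℓ).1 (hα ℓ).2 (hβ ℓ).cont (hβ ℓ).gal he hsev

end

end

end Pool.Agent.W5h21.MH
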