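import Pool.Agent.W5h21.MH.Zar
import Pool.Agent.R932.SQ.Main

/-!
# Over the rational numbers: from one prime to every prime
-/

set_option autoImplicit false
set_option linter.unusedSectionVars false
set_option linter.style.haveILetI false

open Matrix Polynomial Filter Topology NumberField IsDedekindDomain
open Pool.Agent.Y142.ZO Pool.Agent.Y142.ZI
open Pool.Agent.Y142.ZS (SpLie)
open Pool.Agent.Y95.MT
open Pool.Agent.W544.PG (HS BD Enum bl)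
open Pool.Agent.R932.PO (JTan IsForm Kind Fits Allows Sys det_map_ne brs perf brs_le jlift)
open Pool.Agent.R932.EV (SS SC)

namespace Pool.Agent.W5h21.MH

noncomputable section

theorem charpoly_smul {F : Type} [Field F] [Infinite F] {N : ℕ} {a : F} (ha : a ≠ 0)
    (A : Matrix (Fin N) (Fin N) F) : (a • A).charpoly = A.charpoly.scaleRoots a := by
  refine Polynomial.funext fun x => ?_
  have h1 : (Matrix.scalar (Fin N)) x - a • A = a • ((Matrix.scalar (Fin N)) (x / a) - A) := by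
    ext i j
    simp only [Matrix.sub_apply, Matrix.smul_apply, Matrix.scalar_apply, Matrix.diagonal_apply,
      smul_eq_mul]
    split_ifs
    · field_simp
    · ring
  rw [Matrix.eval_charpoly, h1, Matrix.det_smul, Fintype.card_fin]
  have h2 := Polynomial.scaleRoots_eval_mul A.charpoly (x / a) a
  rw [mul_div_cancel₀ _ ha] at h2
  rw [h2, Matrix.eval_charpoly, Matrix.charpoly_natDegree_eq_dim, Fintype.card_fin]

section tw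

variable {F : Type} [Field F] {N : ℕ} {G : Type} [Group G]

/-- twist by a character -/
def tw (χ : G →* F) (ρ : G →* Matrix (Fin N) (Fin N) F) : G →* Matrix (Fin N) (Fin N) F where
  toFun g := χ g • ρ g
  map_one' := by rw [map_one, map_one, one_smul]
  map_mul' g h := by rw [map_mul, map_mul, smul_mul_assoc, mul_smul_comm, smul_smul]

theorem tw_apply (χ : G →* F) (ρ : G →* Matrix (Fin N) (Fin N) F) (g : G) :
    tw χ ρ g = χ g • ρ g := rfl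

theorem chi_ne (χ : G →* F) (g : G) : χ g ≠ 0 := by
  intro h
  have h1 : χ g * χ g⁻¹ = 1 := by rw [← map_mul, mul_inv_cancel, map_one]
  rw [h, zero_mul] at h1
  exact zero_ne_one h1

theorem ss_of_tw {χ : G →* F} {ρ : G →* Matrix (Fin N) (Fin N) F} (h : SS (tw χ ρ)) : SS ρ := by
  intro W hW
  obtain ⟨W', hc, hW'⟩ := h W (fun g w hw => by
    rw [tw_apply, smul_mulVec]
    exact W.smul_mem _ (hW g w hw))
  refine ⟨W', hc, fun g w hw => ?_⟩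
  have h1 := W'.smul_mem (χ g)⁻¹ (hW' g w hw)
  rwa [tw_apply, smul_mulVec, smul_smul, inv_mul_cancel₀ (chi_ne χ g), one_smul] at h1

end tw

section tan

variable {ℓ : ℕ} [hℓ : Fact ℓ.Prime] {N : ℕ} {G : Type} [Group G] [TopologicalSpace G]
  [IsTopologicalGroup G] [CompactSpace G]

/-- a character as a representation -/
def chiRep (χ : G →* ℚ_[ℓ]) : G →* Matrix (Fin 1) (Fin 1) ℚ_[ℓ] where
  toFun g := χ g • 1
  map_one' := by rw [map_one, one_smul]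
  map_mul' g h := by rw [map_mul, smul_mul_assoc, mul_smul_comm, smul_smul, one_mul]

/-- the ranks -/
def bN (N : ℕ) : Bool → ℕ
  | false => 1
  | true => N

/-- the pair -/
def bR (χ : G →* ℚ_[ℓ]) (ρ : G →* Matrix (Fin N) (Fin N) ℚ_[ℓ]) :
    ∀ b, G →* Matrix (Fin (bN N b)) (Fin (bN N b)) ℚ_[ℓ]
  | false => chiRep χ
  | true => ρ

/-- a tangent vector of `ρ` is a tangent vector of the twist, up to a scalar -/
theorem tw_tan {χ : G →* ℚ_[ℓ]} (hχ : Continuous χ) {ρ : G →* Matrix (Fin N) (Fin N) ℚ_[ℓ]}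
    (hρ : Continuous ρ) {X : Matrix (Fin N) (Fin N) ℚ_[ℓ]} (hX : IsTangent ℓ ρ X) :
    ∃ a : ℚ_[ℓ], IsTangent ℓ (tw χ ρ) (X + a • (1 : Matrix (Fin N) (Fin N) ℚ_[ℓ])) := by
  have hR : ∀ b, Continuous (bR χ ρ b) := by
    intro b
    cases b with
    | false =>
      show Continuous (chiRep χ)
      show Continuous fun g => χ g • (1 : Matrix (Fin 1) (Fin 1) ℚ_[ℓ])
      exact hχ.smul continuous_const
    | true => exact hρ
  obtain ⟨Y, ⟨σ, hσ⟩, hY⟩ := jlift ℓ Bool (bN N) G (bR χ ρ) hR true X hX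
  have h0 := hσ false
  have h1 : Tendsto (fun n : ℕ => ((ℓ : ℚ_[ℓ]) ^ n)⁻¹ • (ρ (σ n) - 1)) atTop (𝓝 X) := by
    have h2 := hσ true
    rw [hY] at h2
    exact h2
  have h2 : Tendsto (fun n : ℕ => ((ℓ : ℚ_[ℓ]) ^ n)⁻¹ * (χ (σ n) - 1)) atTop
      (𝓝 (Y false (0 : Fin 1) (0 : Fin 1))) := by
    have h3 := (tendsto_pi_nhds.1 (tendsto_pi_nhds.1 h0 (0 : Fin 1))) (0 : Fin 1)
    refine h3.congr fun n => ?_
    show (((ℓ : ℚ_[ℓ]) ^ n)⁻¹ • (χ (σ n) • (1 : Matrix (Fin 1) (Fin 1) ℚ_[ℓ]) - 1)) 0 0 = _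
    rw [Matrix.smul_apply, Matrix.sub_apply, Matrix.smul_apply, Matrix.one_apply_eq, smul_eq_mul,
      smul_eq_mul, mul_one]
  refine ⟨Y false (0 : Fin 1) (0 : Fin 1), σ, ?_⟩
  have h3 : Tendsto (fun n : ℕ => ρ (σ n)) atTop (𝓝 1) := Pool.Agent.R932.tendsto_one h1
  have h4 := h1.add (h2.smul h3)
  refine h4.congr fun n => ?_
  rw [tw_apply, mul_smul, ← smul_add]
  congr 1
  rw [sub_smul, one_smul]
  abel

/-- the Lie algebra of the twist contains the Lie algebra of the form -/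
theorem tw_full {χ : G →* ℚ_[ℓ]} (hχ : Continuous χ) {ρ : G →* Matrix (Fin N) (Fin N) ℚ_[ℓ]}
    (hρ : Continuous ρ) {J : Matrix (Fin N) (Fin N) ℚ_[ℓ]} (hJ : IsForm J)
    (hfull : ∀ X, SpLie J X → IsTangent ℓ ρ X) {X : Matrix (Fin N) (Fin N) ℚ_[ℓ]}
    (hX : SpLie J X) : IsTangent ℓ (tw χ ρ) X := by
  obtain ⟨𝔤, h𝔤, hbr, -, -⟩ := Pool.Agent.Y708.ZO.t ℓ N G (tw χ ρ)
  rw [← h𝔤]
  have h1 := perf hJ hX
  unfold brs at h1
  refine (Submodule.span_le.2 ?_) h1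
  rintro Z ⟨A, B, hA, hB, rfl⟩
  obtain ⟨a, ha⟩ := tw_tan hχ hρ (hfull A hA)
  obtain ⟨b, hb⟩ := tw_tan hχ hρ (hfull B hB)
  have h2 := hbr _ ((h𝔤 _).2 ha) _ ((h𝔤 _).2 hb)
  have h3 : (A + a • (1 : Matrix (Fin N) (Fin N) ℚ_[ℓ])) * (B + b • 1) -
      (B + b • 1) * (A + a • 1) = A * B - B * A := by
    simp only [add_mul, mul_add, smul_mul_assoc, mul_smul_comm, one_mul, mul_one]
    module
  rw [h3] at h2
  exact h2

end tan

section main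

variable {K : Type} [Field K] [NumberField K] {n r : ℕ} {c : Fin n → Fin r} {N : Fin r → ℕ}
  {e : ∀ i, Fin (N i) → Fin n} {S : Set (HeightOneSpectrum (𝓞 K))}
  {R : Fin r → HeightOneSpectrum (𝓞 K) → ℤ[X]} {Γ : Type} [Group Γ] [TopologicalSpace Γ]
  [IsTopologicalGroup Γ] [CompactSpace Γ] {s : GK K →* Γ} {T : HS n} {p q : Fin r → ℕ}
  {κ : Type} [Fintype κ] [DecidableEq κ]

/-- the Frobenius polynomial of the Tate twist -/
def twP (R : HeightOneSpectrum (𝓞 K) → ℤ[X]) (v : HeightOneSpectrum (𝓞 K)) : ℚ[X] :=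
  ((R v).map (algebraMap ℤ ℚ)).scaleRoots ((Ideal.absNorm v.asIdeal : ℚ))⁻¹

theorem absNorm_ne (v : HeightOneSpectrum (𝓞 K)) : Ideal.absNorm v.asIdeal ≠ 0 := by
  rw [Ne, Ideal.absNorm_eq_zero_iff]
  exact v.ne_bot

/-- the data at one prime, in terms of the representation on the cohomology without twist -/
structure RepC (s : GK K →* Γ) (T : HS n) (c : Fin n → Fin r) (e : ∀ i, Fin (N i) → Fin n)
    (S : Set (HeightOneSpectrum (𝓞 K))) (R : Fin r → HeightOneSpectrum (𝓞 K) → ℤ[X]) (ℓ : ℕ)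
    [Fact ℓ.Prime] (χ : Γ →* ℚ_[ℓ]) (β : Γ →* Matrix (Fin n) (Fin n) ℤ_[ℓ]) : Prop where
  cont : Continuous β
  gal : GalT c T.Q β
  chi_cont : Continuous fun g => χ (s g)
  chi_frob : ∀ v ∉ S, (ℓ : 𝓞 K) ∉ v.asIdeal → ∀ σ : GK K, IsFrobenius v σ →
    χ (s σ⁻¹) = (Ideal.absNorm v.asIdeal : ℚ_[ℓ])
  frob : ∀ i, ∀ v ∉ S, (ℓ : 𝓞 K) ∉ v.asIdeal → ∀ σ : GK K, IsFrobenius v σ →
    ((Ideal.absNorm v.asIdeal : ℚ_[ℓ]) • (qm (β (s σ⁻¹))).submatrix (e i) (e i)).charpoly =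
      (R i v).map (algebraMap ℤ ℚ_[ℓ])

theorem RepC.toB {ℓ : ℕ} [Fact ℓ.Prime] {χ : Γ →* ℚ_[ℓ]} {β : Γ →* Matrix (Fin n) (Fin n) ℤ_[ℓ]}
    (h : RepC s T c e S R ℓ χ β) (hR : ∀ i, ∀ v ∉ S, (R i v).Monic) :
    RepB s T c e S (fun i => twP (R i)) ℓ β := by
  refine ⟨h.cont, h.gal, fun i v hv hvℓ σ hσ => ?_⟩
  have h0 : (Ideal.absNorm v.asIdeal : ℚ_[ℓ]) ≠ 0 := by exact_mod_cast absNorm_ne v
  have h1 := h.frob i v hv hvℓ σ hσ
  have h2 : (qm (β (s σ⁻¹))).submatrix (e i) (e i) = (Ideal.absNorm v.asIdeal : ℚ_[ℓ])⁻¹ •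
      ((Ideal.absNorm v.asIdeal : ℚ_[ℓ]) • (qm (β (s σ⁻¹))).submatrix (e i) (e i)) := by
    rw [smul_smul, inv_mul_cancel₀ h0, one_smul]
  rw [h2, charpoly_smul (inv_ne_zero h0), h1]
  unfold twP
  rw [Polynomial.map_scaleRoots _ _ _ (by
    rw [((hR i v hv).map _).leadingCoeff, map_one]
    exact one_ne_zero), Polynomial.map_map]
  congr 1
  rw [map_inv₀, map_natCast]

/-- semisimplicity at every prime -/
theorem ss_every (hK : Module.finrank ℚ K = 1) (hQ : BD c T.Q) (he : ∀ i, Enum c (e i) i)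
    (hN : ∀ i, 5 ≤ N i) (hS : S.Finite) (hs : Continuous s)
    (χ : ∀ (ℓ : ℕ) [Fact ℓ.Prime], Γ →* ℚ_[ℓ])
    (β : ∀ (ℓ : ℕ) [Fact ℓ.Prime], Γ →* Matrix (Fin n) (Fin n) ℤ_[ℓ])
    (hβ : ∀ (ℓ : ℕ) [Fact ℓ.Prime], RepC s T c e S R ℓ (χ ℓ) (β ℓ))
    (hR : ∀ i, ∀ v ∉ S, (R i v).Monic ∧
      ∀ z : ℂ, aeval z (R i v) = 0 → ‖z‖ = (Ideal.absNorm v.asIdeal : ℝ))
    (ℓ₀ : ℕ) [hℓ₀ : Fact ℓ₀.Prime]
    (hfull : ∀ X, (∀ i, SpLie (bform T (e i) ℓ₀) (X i)) →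
      JTan ℓ₀ (fun i => (brep (hβ ℓ₀).gal.bd (he i)).comp s) X)
    (ℓ : ℕ) [hℓ : Fact ℓ.Prime] (i : Fin r) : SS (brep (hβ ℓ).gal.bd (he i)) := by
  refine ss_of_tw (χ := χ ℓ) fun U hU => ?_
  have hfr : ∀ (ℓ : ℕ) [Fact ℓ.Prime] (g : Γ), (tw (χ ℓ) (brep (hβ ℓ).gal.bd (he i)) g)ᵀ *
      bform T (e i) ℓ * tw (χ ℓ) (brep (hβ ℓ).gal.bd (he i)) g =
      (χ ℓ g ^ 2) • bform T (e i) ℓ := by
    intro ℓ _ g
    rw [tw_apply, transpose_smul, smul_mul_assoc, smul_mul_assoc, mul_smul_comm, smul_smul,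
      brep_iso (hβ ℓ).gal hQ (he i) g, pow_two]
  have h1 := Pool.Agent.R932.SQ.semisimple_full hK s (w := 2) two_pos hS (R i)
    (fun v hv => ⟨(hR i v hv).1, fun z hz => by rw [(hR i v hv).2 z hz]⟩)
    (fun ℓ _ => tw (χ ℓ) (brep (hβ ℓ).gal.bd (he i)))
    (fun ℓ _ => by
      have h2 : Continuous fun g => χ ℓ (s g) • brep (hβ ℓ).gal.bd (he i) (s g) :=
        (hβ ℓ).chi_cont.smul ((brep_cont (hβ ℓ).cont (hβ ℓ).gal.bd (he i)).comp hs)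
      exact h2)
    (fun ℓ _ => bform T (e i) ℓ) (fun ℓ _ => Or.inl (bform_symm (e i) ℓ))
    (fun ℓ _ => bform_det hQ (he i) ℓ) (fun ℓ _ g => χ ℓ g ^ 2) (fun ℓ _ g => hfr ℓ g)
    (fun ℓ _ v hv hvℓ σ hσ => ⟨by
      rw [tw_apply, (hβ ℓ).chi_frob v hv hvℓ σ hσ]
      exact (hβ ℓ).frob i v hv hvℓ σ hσ, by rw [(hβ ℓ).chi_frob v hv hvℓ σ hσ]⟩)
    ℓ₀ ?_ ℓ U hU
  · exact ⟨_, h1.1, h1.2⟩
  · intro X hX
    have h3 : IsForm (bform T (e i) ℓ₀) :=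
      ⟨Or.inl ⟨bform_symm (e i) ℓ₀, hN i⟩, bform_det hQ (he i) ℓ₀⟩
    have hone : ∀ X, SpLie (bform T (e i) ℓ₀) X →
        IsTangent ℓ₀ ((brep (hβ ℓ₀).gal.bd (he i)).comp s) X := fun X hX =>
      Pool.Agent.R932.PO.one_of_joint hfull i X hX
    have h4 := tw_full (G := GK K) (χ := (χ ℓ₀).comp s) (hβ ℓ₀).chi_cont
      (ρ := (brep (hβ ℓ₀).gal.bd (he i)).comp s)
      ((brep_cont (hβ ℓ₀).cont (hβ ℓ₀).gal.bd (he i)).comp hs) h3 hone hX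
    exact h4

/-- **from one prime to every prime** -/
theorem one_prime (hK : Module.finrank ℚ K = 1) (hB : T.Big c p q) (he : ∀ i, Enum c (e i) i)
    (hN : ∀ i, 5 ≤ N i ∧ N i ≠ 6) (hS : S.Finite) (hs : Continuous s)
    (χ : ∀ (ℓ : ℕ) [Fact ℓ.Prime], Γ →* ℚ_[ℓ])
    (α : ∀ (ℓ : ℕ) [Fact ℓ.Prime], Γ →* Matrix κ κ ℚ_[ℓ])
    (hα : ∀ (ℓ : ℕ) [Fact ℓ.Prime], Continuous (α ℓ) ∧ (Set.range (α ℓ)).Finite)
    (β : ∀ (ℓ : ℕ) [Fact ℓ.Prime], Γ →* Matrix (Fin n) (Fin n) ℤ_[ℓ])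
    (hβ : ∀ (ℓ : ℕ) [Fact ℓ.Prime], RepC s T c e S R ℓ (χ ℓ) (β ℓ))
    (hR : ∀ i, ∀ v ∉ S, (R i v).Monic ∧
      ∀ z : ℂ, aeval z (R i v) = 0 → ‖z‖ = (Ideal.absNorm v.asIdeal : ℝ))
    (ℓ₀ : ℕ) [hℓ₀ : Fact ℓ₀.Prime]
    (hal : ∀ i, Allows (kd (N i)) (N i) ℓ₀ (bform T (e i) ℓ₀))
    (h₀ : MTC (hM (fun _ => (1 : Matrix κ κ ℂ)) T) ((tot (α ℓ₀) (β ℓ₀)).comp s)) :
    Y142.ZI.DensityZero {ℓ | ∃ _ : Fact ℓ.Prime,
      ¬ MTC (hM (fun _ => (1 : Matrix κ κ ℂ)) T) (tot (α ℓ) (β ℓ))} ∧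
    ∀ (ℓ : ℕ) [Fact ℓ.Prime], MTC (hM (fun _ => (1 : Matrix κ κ ℂ)) T) (tot (α ℓ) (β ℓ)) ↔
      ∀ i, SC (brep (hβ ℓ).gal.bd (he i)) := by
  have hRm : ∀ i, ∀ v ∉ S, (R i v).Monic := fun i v hv => (hR i v hv).1
  have hB' : ∀ (ℓ : ℕ) [Fact ℓ.Prime], RepB s T c e S (fun i => twP (R i)) ℓ (β ℓ) :=
    fun ℓ _ => (hβ ℓ).toB hRm
  have hgs : GalT c T.Q ((β ℓ₀).comp s) :=
    ⟨fun g => (hβ ℓ₀).gal.form (s g), fun g => (hβ ℓ₀).gal.bd (s g)⟩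
  have hfull₀ : ∀ X, (∀ i, SpLie (bform T (e i) ℓ₀) (X i)) →
      JTan ℓ₀ (fun i => (brep (hβ ℓ₀).gal.bd (he i)).comp s) X := by
    intro X hX
    have h1 : MTC (hM (fun _ => (1 : Matrix κ κ ℂ)) T)
        (tot ((α ℓ₀).comp s) ((β ℓ₀).comp s)) := h₀
    exact joint_of_mtc (G := GK K) hB he (fun i => (hN i).1) hgs ((hβ ℓ₀).cont.comp hs) h1 X hX
  have hsev := Pool.Agent.R932.PO.several (K := K) Pool.Agent.R932.PO.tasks hs hS
    (fun i ℓ _ => brep (hβ ℓ).gal.bd (he i)) (fun i ℓ _ => bform T (e i) ℓ)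
    (fun i ℓ _ => (hB' ℓ).sys hB.bQ he hN i) ℓ₀ hal hfull₀
  constructor
  · refine hsev.1.mono ?_
    rintro ℓ ⟨hp, hno⟩
    exact ⟨hp, fun hfull => hno (mtc_of_comp hB (hα ℓ).1 (hα ℓ).2 (hB' ℓ) he hfull)⟩
  · intro ℓ hℓ
    constructor
    · intro h i
      have h1 := joint_of_mtc hB he (fun i => (hN i).1) (hβ ℓ).gal (hβ ℓ).cont h
      exact sc_of_full (by have := (hN i).1; omega) (bform_symm (e i) ℓ)
        (bform_det hB.bQ (he i) ℓ) (brep_cont (hβ ℓ).cont (hβ ℓ).gal.bd (he i))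
        (Pool.Agent.R932.PO.one_of_joint h1 i)
    · intro hsc
      refine mtc_of_joint hB (hα ℓ).1 (hα ℓ).2 (hβ ℓ).cont (hβ ℓ).gal he ?_
      exact hsev.2 ℓ (fun i => ss_every hK hB.bQ he (fun i => (hN i).1) hS hs χ β hβ hR ℓ₀ hfull₀
        ℓ i) hsc

end main

end

end Pool.Agent.W5h21.MH
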