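import Mathlib

/-!
# Traces of linear maps on matrices, and the second coefficient of the characteristic polynomial
-/

set_option autoImplicit false

open Matrix Polynomial Module

namespace Pool.Agent.W5h21.MH

noncomputable section

section lin

variable {F : Type} [Field F] {N : ℕ}

/-- the linear map `X ↦ g X h` -/
def cj (g h : Matrix (Fin N) (Fin N) F) :
    Matrix (Fin N) (Fin N) F →ₗ[F] Matrix (Fin N) (Fin N) F where
  toFun X := g * X * h
  map_add' X Y := by rw [mul_add, add_mul]
  map_smul' c X := by rw [Matrix.mul_smul, Matrix.smul_mul, RingHom.id_apply]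

theorem cj_apply (g h X : Matrix (Fin N) (Fin N) F) : cj g h X = g * X * h := rfl

/-- the linear map `X ↦ g Xᵀ h` -/
def ct (g h : Matrix (Fin N) (Fin N) F) :
    Matrix (Fin N) (Fin N) F →ₗ[F] Matrix (Fin N) (Fin N) F where
  toFun X := g * Xᵀ * h
  map_add' X Y := by rw [transpose_add, mul_add, add_mul]
  map_smul' c X := by rw [transpose_smul, Matrix.mul_smul, Matrix.smul_mul, RingHom.id_apply]

theorem ct_apply (g h X : Matrix (Fin N) (Fin N) F) : ct g h X = g * Xᵀ * h := rfl

theorem trace_entries (f : Matrix (Fin N) (Fin N) F →ₗ[F] Matrix (Fin N) (Fin N) F) :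
    LinearMap.trace F _ f = ∑ i, ∑ j, f (single i j 1) i j := by
  rw [LinearMap.trace_eq_matrix_trace F (Matrix.stdBasis F (Fin N) (Fin N)) f, Matrix.trace,
    Fintype.sum_prod_type]
  refine Finset.sum_congr rfl fun i _ => Finset.sum_congr rfl fun j _ => ?_
  rw [Matrix.diag_apply, LinearMap.toMatrix_apply, Matrix.stdBasis_eq_single]
  rfl

theorem entry_cj (g h : Matrix (Fin N) (Fin N) F) (i j : Fin N) (k l : Fin N) :
    (g * single k l (1 : F) * h) i j = g i k * h l j := by
  rw [Matrix.mul_apply, Finset.sum_eq_single l]
  · rw [Matrix.mul_apply, Finset.sum_eq_single k]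
    · rw [single_apply_same, mul_one]
    · intro b _ hb
      rw [single_apply_of_ne _ _ _ _ _ (by rintro ⟨rfl, -⟩; exact hb rfl), mul_zero]
    · intro h
      exact absurd (Finset.mem_univ k) h
  · intro b _ hb
    rw [Matrix.mul_apply, Finset.sum_eq_zero, zero_mul]
    intro a _
    rw [single_apply_of_ne _ _ _ _ _ (by rintro ⟨-, rfl⟩; exact hb rfl), mul_zero]
  · intro h
    exact absurd (Finset.mem_univ l) h

theorem trace_cj (g h : Matrix (Fin N) (Fin N) F) :
    LinearMap.trace F _ (cj g h) = g.trace * h.trace := by
  rw [trace_entries]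
  simp only [cj_apply, entry_cj]
  rw [Matrix.trace, Matrix.trace, Finset.sum_mul_sum]
  rfl

theorem trace_ct (g h : Matrix (Fin N) (Fin N) F) :
    LinearMap.trace F _ (ct g h) = (g * hᵀ).trace := by
  rw [trace_entries]
  simp only [ct_apply, transpose_single, entry_cj]
  rw [Matrix.trace]
  refine Finset.sum_congr rfl fun i _ => ?_
  rw [Matrix.diag_apply, Matrix.mul_apply]
  rfl

end lin

section alg

variable {n : Type} [Fintype n] [DecidableEq n] {L : Type} [Field L] [IsAlgClosed L]

theorem card_roots' (A : Matrix n n L) : A.charpoly.roots.card = Fintype.card n := by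
  rw [← Matrix.charpoly_natDegree_eq_dim A]
  exact (Polynomial.splits_iff_card_roots.1 (IsAlgClosed.splits A.charpoly))

theorem prod_flip (s : Multiset L) (μ : L) :
    (-1) ^ s.card * (s.map fun l => μ - l).prod = (s.map fun l => l - μ).prod := by
  induction s using Multiset.induction_on with
  | empty => simp
  | cons a s ih =>
    rw [Multiset.card_cons, Multiset.map_cons, Multiset.map_cons, Multiset.prod_cons,
      Multiset.prod_cons, ← ih]
    ring

theorem det_lin (A : Matrix n n L) (μ : L) :
    (aeval A (X - C μ)).det = (A.charpoly.roots.map fun l => (X - C μ : L[X]).eval l).prod := by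
  have h1 : aeval A (X - C μ) = -(Matrix.scalar n μ - A) := by
    rw [map_sub, aeval_X, aeval_C, neg_sub]
    rfl
  rw [h1, Matrix.det_neg, ← Matrix.eval_charpoly,
    (IsAlgClosed.splits A.charpoly).eval_eq_prod_roots_of_monic A.charpoly_monic μ,
    ← card_roots' A]
  simp only [eval_sub, eval_X, eval_C]
  exact prod_flip _ _

theorem det_mul' (A : Matrix n n L) (f g : L[X])
    (hf : (aeval A f).det = (A.charpoly.roots.map fun l => f.eval l).prod)
    (hg : (aeval A g).det = (A.charpoly.roots.map fun l => g.eval l).prod) :
    (aeval A (f * g)).det = (A.charpoly.roots.map fun l => (f * g).eval l).prod := by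
  rw [map_mul, Matrix.det_mul, hf, hg, ← Multiset.prod_map_mul]
  simp only [eval_mul]

theorem det_monic (A : Matrix n n L) (f : L[X]) (hf : f.Monic) :
    (aeval A f).det = (A.charpoly.roots.map fun l => f.eval l).prod := by
  have h1 : ∀ s : Multiset L, (aeval A (s.map fun a => X - C a).prod).det =
      (A.charpoly.roots.map fun l => ((s.map fun a => X - C a).prod : L[X]).eval l).prod := by
    intro s
    induction s using Multiset.induction_on with
    | empty => simp
    | cons a s ih =>
      rw [Multiset.map_cons, Multiset.prod_cons]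
      exact det_mul' A _ _ (det_lin A a) ih
  have h2 := (IsAlgClosed.splits f).eq_prod_roots_of_monic hf
  rw [h2]
  exact h1 _

theorem charpoly_pow (A : Matrix n n L) (k : ℕ) (hk : k ≠ 0) :
    (A ^ k).charpoly = (A.charpoly.roots.map fun l => X - C (l ^ k)).prod := by
  refine Polynomial.funext fun x => ?_
  have h1 : Matrix.scalar n x - A ^ k = -(aeval A (X ^ k - C x)) := by
    rw [map_sub, map_pow, aeval_X, aeval_C, neg_sub]
    rfl
  rw [Matrix.eval_charpoly, h1, Matrix.det_neg, det_monic A _ (monic_X_pow_sub_C x hk),
    ← card_roots' A, eval_multiset_prod, Multiset.map_map]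
  simp only [Function.comp_def, eval_sub, eval_X, eval_C, eval_pow]
  have h2 := prod_flip (A.charpoly.roots.map fun l => l ^ k) x
  rw [Multiset.card_map, Multiset.map_map, Multiset.map_map] at h2
  simp only [Function.comp_def] at h2
  rw [← h2, ← mul_assoc, ← pow_add, ← two_mul, pow_mul]
  norm_num

theorem trace_sq (A : Matrix n n L) :
    (A ^ 2).trace = (A.charpoly.roots.map fun l => l ^ 2).sum := by
  rw [Matrix.trace_eq_sum_roots_charpoly, charpoly_pow A 2 two_ne_zero]
  have h1 : (A.charpoly.roots.map fun l => X - C (l ^ 2)).prod =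
      ((A.charpoly.roots.map fun l => l ^ 2).map fun a => X - C a).prod := by
    rw [Multiset.map_map]
    rfl
  rw [h1, Polynomial.roots_multiset_prod_X_sub_C]

end alg

section coeff

variable {L : Type} [Field L]

theorem prod_deg (s : Multiset L) :
    ((s.map fun a => X - C a).prod : L[X]).natDegree = s.card := by
  rw [Polynomial.natDegree_multiset_prod_X_sub_C_eq_card]

theorem prod_lead (s : Multiset L) :
    ((s.map fun a => X - C a).prod : L[X]).coeff s.card = 1 := by
  have h := (monic_multiset_prod_of_monic s (fun a => X - C a) fun a _ => monic_X_sub_C a)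
  have h2 := h.coeff_natDegree
  rwa [prod_deg] at h2

/-- the second coefficient -/
theorem prod_next (s : Multiset L) : ∀ k, k + 1 = s.card →
    ((s.map fun a => X - C a).prod : L[X]).coeff k = -s.sum := by
  induction s using Multiset.induction_on with
  | empty =>
    intro k hk
    rw [Multiset.card_zero] at hk
    omega
  | cons a s ih =>
    intro k hk
    rw [Multiset.card_cons] at hk
    have hk' : k = s.card := by omega
    rw [Multiset.map_cons, Multiset.prod_cons, sub_mul, coeff_sub, coeff_C_mul, Multiset.sum_cons]
    subst hk'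
    rw [prod_lead]
    rcases Nat.eq_zero_or_pos s.card with h0 | h0
    · have hs : s = 0 := Multiset.card_eq_zero.1 h0
      subst hs
      simp
    · obtain ⟨m, hm⟩ : ∃ m, m + 1 = s.card := ⟨s.card - 1, by omega⟩
      rw [← hm, coeff_X_mul, ih m hm]
      ring

/-- the third coefficient -/
theorem prod_third (s : Multiset L) : ∀ k, k + 2 = s.card →
    2 * ((s.map fun a => X - C a).prod : L[X]).coeff k =
      s.sum ^ 2 - (s.map fun a => a ^ 2).sum := by
  induction s using Multiset.induction_on with
  | empty =>
    intro k hk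
    rw [Multiset.card_zero] at hk
    omega
  | cons a s ih =>
    intro k hk
    rw [Multiset.card_cons] at hk
    have hk' : k + 1 = s.card := by omega
    rw [Multiset.map_cons, Multiset.prod_cons, sub_mul, coeff_sub, coeff_C_mul, Multiset.sum_cons,
      Multiset.map_cons, Multiset.sum_cons, prod_next s k hk']
    rcases Nat.eq_zero_or_pos k with h0 | h0
    · subst h0
      have h1 : s.card = 1 := by omega
      obtain ⟨b, rfl⟩ := Multiset.card_eq_one.1 h1
      rw [mul_coeff_zero, coeff_X_zero, zero_mul]
      simp
      ring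
    · obtain ⟨m, rfl⟩ : ∃ m, k = m + 1 := ⟨k - 1, by omega⟩
      rw [coeff_X_mul]
      have h1 := ih m (by omega)
      linear_combination h1

end coeff

/-- the second symmetric function of the eigenvalues -/
theorem coeff_charpoly {F : Type} [Field F] {N : ℕ} (hN : 2 ≤ N) (g : Matrix (Fin N) (Fin N) F) :
    2 * g.charpoly.coeff (N - 2) = g.trace ^ 2 - (g * g).trace := by
  obtain ⟨j, hj⟩ : ∃ j, j = algebraMap F (AlgebraicClosure F) := ⟨_, rfl⟩
  have hinj : Function.Injective j := by
    rw [hj]
    exact (algebraMap F (AlgebraicClosure F)).injective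
  apply hinj
  have h1 := (IsAlgClosed.splits (g.map j).charpoly).eq_prod_roots_of_monic
    (Matrix.charpoly_monic _)
  have h2 := prod_third (g.map j).charpoly.roots (N - 2) (by
    rw [card_roots', Fintype.card_fin]
    omega)
  rw [← h1, ← Matrix.trace_eq_sum_roots_charpoly, ← trace_sq, Matrix.charpoly_map,
    Polynomial.coeff_map, pow_two (g.map j), ← Matrix.map_mul] at h2
  have h3 : ∀ A : Matrix (Fin N) (Fin N) F, (A.map j).trace = j A.trace := by
    intro A
    rw [Matrix.trace, Matrix.trace, map_sum]
    rfl
  rw [h3, h3] at h2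
  rw [map_mul, map_sub, map_pow, map_ofNat]
  exact h2

end

end Pool.Agent.W5h21.MH
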