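import Pool.Agent.R932.PO.JLie
import Pool.Agent.R932.PO.Gour
import Pool.Agent.R932.PO.Pair
import Pool.Agent.W5h21.MH.Tr

/-!
# Several orthogonal representations: traces on the exterior squares separate them
-/

set_option autoImplicit false
set_option linter.unusedSectionVars false

open Matrix Polynomial Module Filter Topology
open Pool.Agent.Y142.ZO Pool.Agent.Y142.ZI Pool.Agent.Y142.ZS
open Pool.Agent.R932.PO

namespace Pool.Agent.W5h21.MH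

noncomputable section

section alg

variable {F : Type} [Field F] [CharZero F] {N : ℕ}

theorem cj_mem {J g h : Matrix (Fin N) (Fin N) F} (hg : gᵀ * J * g = J) (hgh : g * h = 1)
    {X : Matrix (Fin N) (Fin N) F} (hX : X ∈ spSub J) : cj g h X ∈ spSub J := by
  have hhg : h * g = 1 := mul_eq_one_comm.1 hgh
  rw [mem_spSub] at hX ⊢
  unfold SpLie at hX ⊢
  rw [cj_apply]
  have e1 : gᵀ * J = J * h := by
    calc gᵀ * J = gᵀ * J * (g * h) := by rw [hgh, mul_one]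
      _ = gᵀ * J * g * h := by noncomm_ring
      _ = J * h := by rw [hg]
  have hh : hᵀ * gᵀ = 1 := by rw [← transpose_mul, hgh, transpose_one]
  have e2 : J * g = hᵀ * J := by
    calc J * g = hᵀ * gᵀ * (J * g) := by rw [hh, one_mul]
      _ = hᵀ * (gᵀ * J * g) := by noncomm_ring
      _ = hᵀ * J := by rw [hg]
  calc (g * X * h)ᵀ * J + J * (g * X * h) = hᵀ * Xᵀ * (gᵀ * J) + (J * g) * X * h := by
        rw [transpose_mul, transpose_mul]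
        noncomm_ring
    _ = hᵀ * (Xᵀ * J + J * X) * h := by
        rw [e1, e2]
        noncomm_ring
    _ = 0 := by rw [hX, mul_zero, zero_mul]

/-- the trace on the Lie algebra of a symmetric form -/
theorem trace_so {J g h : Matrix (Fin N) (Fin N) F} (hJ : IsForm J) (hs : Jᵀ = J)
    (hg : gᵀ * J * g = J) (hgh : g * h = 1)
    (hmem : ∀ X ∈ spSub J, cj g h X ∈ spSub J) :
    2 * LinearMap.trace F (spSub J) ((cj g h).restrict hmem) = g.trace ^ 2 - (g * g).trace := by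
  have hu : IsUnit J.det := isUnit_iff_ne_zero.2 hJ.2
  have e1 : gᵀ * J = J * h := by
    calc gᵀ * J = gᵀ * J * (g * h) := by rw [hgh, mul_one]
      _ = gᵀ * J * g * h := by noncomm_ring
      _ = J * h := by rw [hg]
  have hh : hᵀ * gᵀ = 1 := by rw [← transpose_mul, hgh, transpose_one]
  have e2 : J * g = hᵀ * J := by
    calc J * g = hᵀ * gᵀ * (J * g) := by rw [hh, one_mul]
      _ = hᵀ * (gᵀ * J * g) := by noncomm_ring
      _ = hᵀ * J := by rw [hg]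
  let f : Matrix (Fin N) (Fin N) F →ₗ[F] Matrix (Fin N) (Fin N) F := (cj g h).comp (pr J)
  have hf : ∀ X, f X ∈ spSub J := fun X => hmem _ (pr_spLie hJ X)
  have h1 := LinearMap.trace_restrict_eq_of_forall_mem (spSub J) f hf (fun X _ => hf X)
  have h2 : f.restrict (p := spSub J) (q := spSub J) (fun X _ => hf X) =
      (cj g h).restrict hmem := by
    ext X
    show (f X : Matrix (Fin N) (Fin N) F) _ _ = (cj g h X) _ _
    have h3 : f X = cj g h X := by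
      show cj g h (pr J X) = cj g h X
      rw [pr_self hJ.2 (mem_spSub.1 X.2)]
    rw [h3]
  rw [← h2, h1]
  have h4 : f = (2 : F)⁻¹ • (cj g h - ct (g * J⁻¹) (J * h)) := by
    refine LinearMap.ext fun X => ?_
    show cj g h (pr J X) = (2 : F)⁻¹ • (g * X * h - g * J⁻¹ * Xᵀ * (J * h))
    rw [cj_apply, pr_apply, Matrix.mul_smul, Matrix.smul_mul]
    congr 1
    noncomm_ring
  rw [h4, map_smul, map_sub, trace_cj, trace_ct, smul_eq_mul, ← mul_assoc,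
    mul_inv_cancel₀ two_ne_zero, one_mul]
  have h5 : h.trace = g.trace := by
    have h6 : h = J⁻¹ * (gᵀ * J) := by
      rw [e1, ← mul_assoc, nonsing_inv_mul _ hu, one_mul]
    rw [h6, ← mul_assoc, Matrix.trace_mul_cycle, mul_nonsing_inv _ hu, one_mul, trace_transpose]
  have h7 : g * J⁻¹ * (J * h)ᵀ = g * g := by
    rw [transpose_mul, hs, ← e2, mul_assoc, ← mul_assoc J⁻¹, nonsing_inv_mul _ hu, one_mul]
  rw [h5, h7, pow_two]

end alg

section pair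

variable {ℓ : ℕ} [hℓ : Fact ℓ.Prime] {ι : Type} [Fintype ι] [DecidableEq ι] {N : ι → ℕ}
  {G : Type} [Group G] [TopologicalSpace G] [IsTopologicalGroup G] [CompactSpace G]
  {ρ : ∀ i, G →* Matrix (Fin (N i)) (Fin (N i)) ℚ_[ℓ]}
  {J : ∀ i, Matrix (Fin (N i)) (Fin (N i)) ℚ_[ℓ]}

theorem pair_so (hρ : ∀ i, Continuous (ρ i)) (hJ : ∀ i, IsForm (J i)) (hN : ∀ i, 0 < N i)
    (hsy : ∀ i, (J i)ᵀ = J i) (hiso : ∀ i g, (ρ i g)ᵀ * J i * ρ i g = J i)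
    (hfull : ∀ i X, SpLie (J i) X → IsTangent ℓ (ρ i) X)
    {𝔤 : Submodule ℚ_[ℓ] (∀ i, Matrix (Fin (N i)) (Fin (N i)) ℚ_[ℓ])}
    (h𝔤 : ∀ X, X ∈ 𝔤 ↔ JTan ℓ ρ X)
    (hbr : ∀ X ∈ 𝔤, ∀ Y ∈ 𝔤, (fun i => X i * Y i - Y i * X i) ∈ 𝔤)
    (had : ∀ g : G, ∀ X ∈ 𝔤, (fun i => ρ i g * X i * ρ i g⁻¹) ∈ 𝔤)
    {i j : ι} (g : G)
    (hg : (ρ i g).trace ^ 2 - (ρ i g * ρ i g).trace ≠ (ρ j g).trace ^ 2 - (ρ j g * ρ j g).trace) :
    ∀ X, SpLie (J i) X → ∃ Y ∈ 𝔤, Y i = X ∧ Y j = 0 := by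
  have hlift : ∀ (k : ι) X, SpLie (J k) X → ∃ Y ∈ 𝔤, Y k = X := by
    intro k X hX
    obtain ⟨Y, hY, hYk⟩ := jlift ℓ ι N G ρ hρ k X (hfull k X hX)
    exact ⟨Y, (h𝔤 Y).2 hY, hYk⟩
  have hsk : ∀ Y ∈ 𝔤, ∀ k, SpLie (J k) (Y k) := by
    intro Y hY k
    obtain ⟨σ, hσ⟩ := (h𝔤 Y).1 hY
    obtain ⟨𝔥, h1, -, -, h2⟩ := Pool.Agent.Y708.ZO.t ℓ (N k) G (ρ k)
    have h3 := h2 (J k) (hsy k) (fun g => hiso k g) (Y k) ((h1 _).2 ⟨σ, hσ k⟩)
    unfold Skew at h3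
    unfold SpLie
    rw [transpose_mul, hsy k] at h3
    rw [h3, neg_add_cancel]
  -- the ideals
  let I : ∀ a b : ι, Submodule ℚ_[ℓ] (Matrix (Fin (N a)) (Fin (N a)) ℚ_[ℓ]) := fun a b =>
    { carrier := {X | ∃ Y ∈ 𝔤, Y a = X ∧ Y b = 0}
      add_mem' := by
        rintro _ _ ⟨Y, hY, rfl, hYj⟩ ⟨Y', hY', rfl, hYj'⟩
        exact ⟨Y + Y', 𝔤.add_mem hY hY', rfl, by rw [Pi.add_apply, hYj, hYj', add_zero]⟩
      zero_mem' := ⟨0, 𝔤.zero_mem, rfl, rfl⟩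
      smul_mem' := by
        rintro c _ ⟨Y, hY, rfl, hYj⟩
        exact ⟨c • Y, 𝔤.smul_mem c hY, rfl, by rw [Pi.smul_apply, hYj, smul_zero]⟩ }
  have hI : ∀ a b X, SpLie (J a) X → ∀ Z ∈ I a b, X * Z - Z * X ∈ I a b := by
    rintro a b X hX _ ⟨Y, hY, rfl, hYj⟩
    obtain ⟨W, hW, rfl⟩ := hlift a X hX
    exact ⟨_, hbr W hW Y hY, rfl, by simp only [hYj, mul_zero, zero_mul, sub_zero]⟩
  by_cases hex : ∃ Z ∈ I i j, Z ≠ 0
  · obtain ⟨Z, hZ, hZ0⟩ := hex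
    intro X hX
    have hZs : SpLie (J i) Z := by
      obtain ⟨Y, hY, rfl, -⟩ := hZ
      exact hsk Y hY i
    obtain ⟨Y, hY, hYi, hYj⟩ := form_ideal (hJ i) (I i j) (hI i j) hZ hZs hZ0 hX
    exact ⟨Y, hY, hYi, hYj⟩
  exfalso
  push Not at hex
  have hex' : ∀ Y ∈ 𝔤, Y j = 0 → Y i = 0 := fun Y hY h => hex _ ⟨Y, hY, rfl, h⟩
  have hex2 : ∀ Y ∈ 𝔤, Y i = 0 → Y j = 0 := by
    intro Y hY hYi
    by_contra hne
    obtain ⟨X₁, X₂, hX₁, hX₂, hX⟩ := pos_noncomm (hJ i) (hN i)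
    obtain ⟨W, hW, hWi⟩ := hlift i _ hX₁
    obtain ⟨Y', hY', hY'j, hY'i⟩ := form_ideal (hJ j) (I j i) (hI j i) ⟨Y, hY, rfl, hYi⟩
      (hsk Y hY j) hne (hsk W hW j)
    have h1 := hex' (W - Y') (𝔤.sub_mem hW hY') (by rw [Pi.sub_apply, hY'j, sub_self])
    rw [Pi.sub_apply, hY'i, sub_zero, hWi] at h1
    apply hX
    rw [h1, zero_mul, mul_zero, sub_zero]
  -- the graph
  let D : Submodule ℚ_[ℓ] (Matrix (Fin (N i)) (Fin (N i)) ℚ_[ℓ] ×
      Matrix (Fin (N j)) (Fin (N j)) ℚ_[ℓ]) :=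
    𝔤.map ((LinearMap.proj i).prod (LinearMap.proj j))
  have hD : ∀ A B, (A, B) ∈ D ↔ ∃ Y ∈ 𝔤, Y i = A ∧ Y j = B := by
    intro A B
    constructor
    · rintro ⟨Y, hY, h⟩
      exact ⟨Y, hY, congrArg Prod.fst h, congrArg Prod.snd h⟩
    · rintro ⟨Y, hY, rfl, rfl⟩
      exact ⟨Y, hY, rfl⟩
  let pi : D →ₗ[ℚ_[ℓ]] spSub (J i) :=
    ((LinearMap.fst ℚ_[ℓ] _ _).comp D.subtype).codRestrict (spSub (J i)) (by
      rintro ⟨⟨A, B⟩, h⟩
      obtain ⟨Y, hY, rfl, -⟩ := (hD A B).1 h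
      exact hsk Y hY i)
  let pj : D →ₗ[ℚ_[ℓ]] spSub (J j) :=
    ((LinearMap.snd ℚ_[ℓ] _ _).comp D.subtype).codRestrict (spSub (J j)) (by
      rintro ⟨⟨A, B⟩, h⟩
      obtain ⟨Y, hY, -, rfl⟩ := (hD A B).1 h
      exact hsk Y hY j)
  have hpi : Function.Bijective pi := by
    constructor
    · refine (injective_iff_map_eq_zero pi).2 ?_
      rintro ⟨⟨A, B⟩, h⟩ h0
      obtain ⟨Y, hY, rfl, rfl⟩ := (hD A B).1 h
      have h1 : Y i = 0 := congrArg Subtype.val h0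
      have h2 := hex2 Y hY h1
      apply Subtype.ext
      exact Prod.ext h1 h2
    · rintro ⟨X, hX⟩
      obtain ⟨Y, hY, hYi⟩ := hlift i X hX
      refine ⟨⟨(Y i, Y j), (hD _ _).2 ⟨Y, hY, rfl, rfl⟩⟩, ?_⟩
      apply Subtype.ext
      exact hYi
  have hpj : Function.Bijective pj := by
    constructor
    · refine (injective_iff_map_eq_zero pj).2 ?_
      rintro ⟨⟨A, B⟩, h⟩ h0
      obtain ⟨Y, hY, rfl, rfl⟩ := (hD A B).1 h
      have h1 : Y j = 0 := congrArg Subtype.val h0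
      have h2 := hex' Y hY h1
      apply Subtype.ext
      exact Prod.ext h2 h1
    · rintro ⟨X, hX⟩
      obtain ⟨Y, hY, hYj⟩ := hlift j X hX
      refine ⟨⟨(Y i, Y j), (hD _ _).2 ⟨Y, hY, rfl, rfl⟩⟩, ?_⟩
      apply Subtype.ext
      exact hYj
  let Ei := LinearEquiv.ofBijective pi hpi
  let Ej := LinearEquiv.ofBijective pj hpj
  have hinv : ∀ k, ρ k g * ρ k g⁻¹ = 1 := fun k => by
    rw [← map_mul, mul_inv_cancel, map_one]
  have hmem : ∀ k, ∀ X ∈ spSub (J k), cj (ρ k g) (ρ k g⁻¹) X ∈ spSub (J k) := fun k X hX =>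
    cj_mem (hiso k g) (hinv k) hX
  let A : D →ₗ[ℚ_[ℓ]] D := ((cj (ρ i g) (ρ i g⁻¹)).prodMap (cj (ρ j g) (ρ j g⁻¹))).restrict
    (p := D) (q := D) (by
      rintro ⟨A, B⟩ h
      obtain ⟨Y, hY, rfl, rfl⟩ := (hD A B).1 h
      exact (hD _ _).2 ⟨_, had g Y hY, rfl, rfl⟩)
  have h1 : Ei.conj A = (cj (ρ i g) (ρ i g⁻¹)).restrict (hmem i) := by
    refine LinearMap.ext fun X => ?_
    obtain ⟨Z, rfl⟩ := Ei.surjective X
    rw [LinearEquiv.conj_apply_apply, LinearEquiv.symm_apply_apply]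
    apply Subtype.ext
    rfl
  have h2 : Ej.conj A = (cj (ρ j g) (ρ j g⁻¹)).restrict (hmem j) := by
    refine LinearMap.ext fun X => ?_
    obtain ⟨Z, rfl⟩ := Ej.surjective X
    rw [LinearEquiv.conj_apply_apply, LinearEquiv.symm_apply_apply]
    apply Subtype.ext
    rfl
  have h3 := LinearMap.trace_conj' A Ei
  have h4 := LinearMap.trace_conj' A Ej
  rw [h1] at h3
  rw [h2] at h4
  apply hg
  rw [← trace_so (hJ i) (hsy i) (hiso i g) (hinv i) (hmem i),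
    ← trace_so (hJ j) (hsy j) (hiso j g) (hinv j) (hmem j), h3, h4]

/-- several orthogonal representations with full Lie algebras, which are separated by the traces on
the exterior squares -/
theorem joint_so (hρ : ∀ i, Continuous (ρ i)) (hJ : ∀ i, IsForm (J i)) (hN : ∀ i, 0 < N i)
    (hsy : ∀ i, (J i)ᵀ = J i) (hiso : ∀ i g, (ρ i g)ᵀ * J i * ρ i g = J i)
    (hfull : ∀ i X, SpLie (J i) X → IsTangent ℓ (ρ i) X)
    (hsep : ∀ i j, i ≠ j → ∃ g : G,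
      (ρ i g).trace ^ 2 - (ρ i g * ρ i g).trace ≠ (ρ j g).trace ^ 2 - (ρ j g * ρ j g).trace)
    (X : ∀ i, Matrix (Fin (N i)) (Fin (N i)) ℚ_[ℓ]) (hX : ∀ i, SpLie (J i) (X i)) :
    JTan ℓ ρ X := by
  obtain ⟨𝔤, h𝔤, hbr, had⟩ := jlie ℓ ι N G ρ
  have h1 : ∀ i, Pi.single i (X i) ∈ 𝔤 := by
    intro i
    refine gour ℚ_[ℓ] ι N J hJ 𝔤 hbr ?_ ?_ i (X i) (hX i)
    · intro i X hX
      obtain ⟨Y, hY, hYi⟩ := jlift ℓ ι N G ρ hρ i X (hfull i X hX)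
      exact ⟨Y, (h𝔤 Y).2 hY, hYi⟩
    · intro i j hij
      obtain ⟨g, hg⟩ := hsep i j hij
      exact pair_so hρ hJ hN hsy hiso hfull h𝔤 hbr had g hg
  have h2 : X = ∑ i, Pi.single i (X i) := by
    funext i
    rw [Finset.sum_apply, Finset.sum_eq_single i]
    · rw [Pi.single_eq_same]
    · intro j _ hj
      rw [Pi.single_eq_of_ne (Ne.symm hj)]
    · intro h
      exact absurd (Finset.mem_univ i) h
  refine (h𝔤 X).1 ?_
  rw [h2]
  exact 𝔤.sum_mem fun i _ => h1 i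

end pair

end

end Pool.Agent.W5h21.MH
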