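import Pool.Agent.W5h21.MH.Fin
import Pool.Agent.R932.GR.Full

/-!
# From the Mumford-Tate conjecture to the full joint Lie algebra
-/

set_option autoImplicit false
set_option linter.unusedSectionVars false
set_option linter.style.haveILetI false

open Matrix Polynomial Filter Topology NumberField IsDedekindDomain
open Pool.Agent.Y142.ZO Pool.Agent.Y142.ZI
open Pool.Agent.Y142.ZS (SpLie)
open Pool.Agent.Y95.MT
open Pool.Agent.W544.PG (HS BD Enum bl)
open Pool.Agent.R932.PO (JTan IsForm Kind Fits Allows Sys det_map_ne)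
open Pool.Agent.R932.EV (SS SC)
open Pool.Agent.R932.GR (Pf evf ZarF)

namespace Pool.Agent.W5h21.MH

noncomputable section

section asm

variable {n r : ℕ} {c : Fin n → Fin r} {N : Fin r → ℕ} {e : ∀ i, Fin (N i) → Fin n}

/-- a family of blocks is the family of the blocks of a matrix -/
theorem exists_asm {R : Type} [CommRing R] (he : ∀ i, Enum c (e i) i)
    (X : ∀ i, Matrix (Fin (N i)) (Fin (N i)) R) :
    ∃ t : Matrix (Fin n) (Fin n) R, BD c t ∧ ∀ i, t.submatrix (e i) (e i) = X i := by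
  classical
  choose inv hinv using fun i (a : {a // c a = i}) => (he i).surj a.1 a.2
  refine ⟨fun a b => if h : c a = c b then X (c b) (inv (c b) ⟨a, h⟩) (inv (c b) ⟨b, rfl⟩) else 0,
    fun a b hab => dif_neg hab, fun i => ?_⟩
  have key : ∀ a b (ha : c a = i) (hb : c b = i),
      (if h : c a = c b then X (c b) (inv (c b) ⟨a, h⟩) (inv (c b) ⟨b, rfl⟩) else 0) =
        X i (inv i ⟨a, ha⟩) (inv i ⟨b, hb⟩) := by
    intro a b ha hb
    subst hb
    rw [dif_pos ha]
  ext x y
  have hx : inv i ⟨e i x, (he i).col x⟩ = x := (he i).inj (hinv i ⟨e i x, (he i).col x⟩)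
  have hy : inv i ⟨e i y, (he i).col y⟩ = y := (he i).inj (hinv i ⟨e i y, (he i).col y⟩)
  refine (key _ _ ((he i).col x) ((he i).col y)).trans ?_
  rw [hx, hy]

/-- the determinant of a block -/
theorem bl_det {R : Type} [CommRing R] {k : ℕ} {e : Fin k → Fin n} {i : Fin r} (he : Enum c e i)
    (t : Matrix (Fin n) (Fin n) R) : (bl c i t).det = (t.submatrix e e).det := by
  classical
  have h1 := Matrix.twoBlockTriangular_det (bl c i t) (fun a => c a = i) (by
    intro a ha b hb
    show (if c a = i ∧ c b = i then t a b else if a = b then 1 else 0) = 0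
    rw [if_neg fun h => ha h.1, if_neg]
    rintro rfl
    exact ha hb)
  have h2 : (bl c i t).toSquareBlockProp (fun a => ¬ c a = i) = 1 := by
    ext a b
    show (if c a.1 = i ∧ c b.1 = i then t a.1 b.1 else if a.1 = b.1 then 1 else 0) = _
    rw [if_neg fun h => a.2 h.1, Matrix.one_apply]
    simp only [Subtype.ext_iff]
  let ε : Fin k ≃ {a // c a = i} := Equiv.ofBijective (fun x => ⟨e x, he.col x⟩)
    ⟨fun x y h => he.inj (congrArg Subtype.val h), fun a => by
      obtain ⟨x, hx⟩ := he.surj a.1 a.2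
      exact ⟨x, Subtype.ext hx⟩⟩
  have h3 : ((bl c i t).toSquareBlockProp (fun a => c a = i)).submatrix ε ε =
      t.submatrix e e := by
    ext x y
    show (if c (e x) = i ∧ c (e y) = i then t (e x) (e y) else if e x = e y then 1 else 0) = _
    rw [if_pos ⟨he.col x, he.col y⟩]
    rfl
  rw [h1, h2, det_one, mul_one, ← Matrix.det_submatrix_equiv_self ε, h3]

theorem ext_blk {R : Type} [CommRing R] (he : ∀ i, Enum c (e i) i)
    {A B : Matrix (Fin n) (Fin n) R} (hA : BD c A) (hB : BD c B)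
    (h : ∀ i, A.submatrix (e i) (e i) = B.submatrix (e i) (e i)) : A = B := by
  ext a b
  by_cases hab : c a = c b
  · obtain ⟨x, hx⟩ := (he (c a)).surj a rfl
    obtain ⟨y, hy⟩ := (he (c a)).surj b hab.symm
    have h1 := congrFun (congrFun (h (c a)) x) y
    rw [submatrix_apply, submatrix_apply, hx, hy] at h1
    exact h1
  · rw [hA a b hab, hB a b hab]

theorem bd_mul {R : Type} [CommRing R] {A B : Matrix (Fin n) (Fin n) R} (hA : BD c A)
    (hB : BD c B) : BD c (A * B) := by
  intro a b hab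
  rw [Matrix.mul_apply]
  refine Finset.sum_eq_zero fun d _ => ?_
  by_cases had : c a = c d
  · rw [hB d b (by rw [← had]; exact hab), mul_zero]
  · rw [hA a d had, zero_mul]

end asm

section zar

variable {ℓ : ℕ} [hℓ : Fact ℓ.Prime] {n r : ℕ} {c : Fin n → Fin r} {N : Fin r → ℕ}
  {e : ∀ i, Fin (N i) → Fin n} {T : HS n} {p q : Fin r → ℕ} {κ : Type} [Fintype κ]
  [DecidableEq κ] {G : Type} [Group G] {β : G →* Matrix (Fin n) (Fin n) ℤ_[ℓ]}
  {v : G →* Matrix κ κ ℚ_[ℓ]}

/-- the Zariski closure contains the special orthogonal groups -/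
theorem zar_of_mtc (hB : T.Big c p q) (he : ∀ i, Enum c (e i) i) (hg : GalT c T.Q β)
    (h : MTC (hM (fun _ => (1 : Matrix κ κ ℂ)) T) (tot v β)) :
    ZarF (fun i => brep hg.bd (he i)) (fun i => bform T (e i) ℓ) := by
  intro f hf t ht htd
  obtain ⟨Δ, hΔ, hf⟩ := hf
  obtain ⟨j, hj⟩ : ∃ j, j = algebraMap ℚ_[ℓ] (AlgebraicClosure ℚ_[ℓ]) := ⟨_, rfl⟩
  obtain ⟨t', ht', htt⟩ := exists_asm he t
  obtain ⟨emb⟩ := exists_emb ℓ
  -- the element of the special orthogonal group
  have hbd : BD c (t'.map j) := bd_map j ht'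
  have hmap : (T.Q.map (algebraMap ℚ ℚ_[ℓ])).map j =
      T.Q.map (algebraMap ℚ (AlgebraicClosure ℚ_[ℓ])) := by
    rw [Matrix.map_map]
    congr 1
    funext a
    have h1 : j.comp (algebraMap ℚ ℚ_[ℓ]) = algebraMap ℚ (AlgebraicClosure ℚ_[ℓ]) :=
      Subsingleton.elim _ _
    exact RingHom.congr_fun h1 a
  have hform : t'ᵀ * T.Q.map (algebraMap ℚ ℚ_[ℓ]) * t' = T.Q.map (algebraMap ℚ ℚ_[ℓ]) := by
    have h1 : BD c (T.Q.map (algebraMap ℚ ℚ_[ℓ])) := bd_map _ hB.bQ
    have h2 : BD c t'ᵀ := bd_transpose ht'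
    refine ext_blk he (bd_mul (bd_mul h2 h1) ht') h1 fun i => ?_
    rw [blk_mul (he i) (bd_mul h2 h1), blk_mul (he i) h2, ← Matrix.transpose_submatrix, htt i]
    exact ht i
  have hSO : InSO c T.Q (t'.map j) := by
    refine ⟨?_, hbd, fun i => ?_⟩
    · rw [← hmap, ← Matrix.transpose_map, ← Matrix.map_mul, ← Matrix.map_mul, hform]
    · have h0 : (t'.map j).submatrix (e i) (e i) = (t i).map j := by
        rw [← htt i]
        rfl
      rw [bl_det (he i), h0]
      have h1 : ((t i).map j).det = j (t i).det := by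
        rw [RingHom.map_det, RingHom.mapMatrix_apply]
      rw [h1, htd i, map_one]
  have hdet : (fromBlocks (1 : Matrix κ κ (AlgebraicClosure ℚ_[ℓ])) 0 0 (t'.map j)).det ≠ 0 := by
    rw [Matrix.det_fromBlocks_zero₂₁, det_one, one_mul]
    intro h0
    have h1 := congrArg Matrix.det hSO.1
    rw [det_mul, det_mul, h0, mul_zero] at h1
    have h2 : (T.Q.map (algebraMap ℚ (AlgebraicClosure ℚ_[ℓ]))).det ≠ 0 := by
      have h3 : (T.Q.map (algebraMap ℚ (AlgebraicClosure ℚ_[ℓ]))).det =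
          algebraMap ℚ (AlgebraicClosure ℚ_[ℓ]) T.Q.det := by
        rw [RingHom.map_det, RingHom.mapMatrix_apply]
      rw [h3]
      exact (_root_.map_ne_zero _).2 (W74.PG.det_ne T)
    exact h2 h1.symm
  have hMT : InMT (hM (fun _ => (1 : Matrix κ κ ℂ)) T)
      (fromBlocks (1 : Matrix κ κ (AlgebraicClosure ℚ_[ℓ])) 0 0 (t'.map j)) := by
    refine (InMT_iff (c := c) hB (fun _ _ => by rw [Matrix.det_one]; exact one_ne_zero) star_N emb
      hdet).2 ⟨?_, ?_, ?_⟩
    · rw [Matrix.toBlocks_fromBlocks₁₁, Matrix.toBlocks_fromBlocks₂₂]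
    · rw [Matrix.toBlocks_fromBlocks₁₁]
      intro g hg1
      have h1 := hg1 1 (fun G hG _ => hG.2.1)
      have h2 : vQ (1 : Matrix κ κ (AlgebraicClosure ℚ_[ℓ])) g =
          algebraMap ℚ (AlgebraicClosure ℚ_[ℓ]) (vQ (1 : Matrix κ κ ℚ) g) := by
        unfold vQ
        rw [MvPolynomial.aeval_def, MvPolynomial.aeval_def, MvPolynomial.eval₂_comp_left]
        congr 1
        funext x
        simp only [Matrix.one_apply, Function.comp_apply]
        split_ifs <;> simp
      have h3 : vQ (1 : Matrix κ κ ℂ) g = algebraMap ℚ ℂ (vQ (1 : Matrix κ κ ℚ) g) := by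
        unfold vQ
        rw [MvPolynomial.aeval_def, MvPolynomial.aeval_def, MvPolynomial.eval₂_comp_left]
        congr 1
        funext x
        simp only [Matrix.one_apply, Function.comp_apply]
        split_ifs <;> simp
      rw [h3] at h1
      have h4 := (map_eq_zero (algebraMap ℚ ℂ)).1 h1
      rw [h2, h4, map_zero]
    · rw [Matrix.toBlocks_fromBlocks₂₂]
      exact hSO
  have hG0 := (h _ hdet).2 hMT
  -- the polynomial
  let F : MvPolynomial ((κ ⊕ Fin n) × (κ ⊕ Fin n)) (AlgebraicClosure ℚ_[ℓ]) :=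
    MvPolynomial.rename (fun x : (Σ i, Fin (N i) × Fin (N i)) =>
      ((Sum.inr (e x.1 x.2.1), Sum.inr (e x.1 x.2.2)) : (κ ⊕ Fin n) × (κ ⊕ Fin n)))
      (MvPolynomial.map j f)
  have hF : ∀ (A : Matrix κ κ ℚ_[ℓ]) (B : Matrix (Fin n) (Fin n) ℚ_[ℓ]),
      MvPolynomial.aeval (fun x : (κ ⊕ Fin n) × (κ ⊕ Fin n) =>
        j ((fromBlocks A 0 0 B : Matrix (κ ⊕ Fin n) (κ ⊕ Fin n) ℚ_[ℓ]) x.1 x.2)) F =
      j (evf (fun i => B.submatrix (e i) (e i)) f) := by
    intro A B
    show MvPolynomial.aeval _ (MvPolynomial.rename _ (MvPolynomial.map j f)) = _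
    rw [MvPolynomial.aeval_rename, MvPolynomial.aeval_def, MvPolynomial.eval₂_map]
    unfold evf
    rw [MvPolynomial.eval, MvPolynomial.coe_eval₂Hom, MvPolynomial.eval₂_comp_left]
    rfl
  have h5 := hG0 F ⟨Δ, hΔ, fun s hs => by
    rw [tot_apply, ← hj]
    rw [hF, ← map_zero j]
    congr 1
    exact hf s hs⟩
  have h6 := hF 1 t'
  have h7 : (fun x : (κ ⊕ Fin n) × (κ ⊕ Fin n) =>
      j ((fromBlocks 1 0 0 t' : Matrix (κ ⊕ Fin n) (κ ⊕ Fin n) ℚ_[ℓ]) x.1 x.2)) =
      fun x => (fromBlocks 1 0 0 (t'.map j) :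
        Matrix (κ ⊕ Fin n) (κ ⊕ Fin n) (AlgebraicClosure ℚ_[ℓ])) x.1 x.2 := by
    funext ⟨x, y⟩
    rcases x with x | x <;> rcases y with y | y
    · simp only [fromBlocks_apply₁₁, Matrix.one_apply]
      split_ifs <;> simp
    · simp
    · simp
    · simp
  rw [h7, h5] at h6
  have h8 := (map_eq_zero j).1 h6.symm
  have h9 : (fun i => t'.submatrix (e i) (e i)) = t := funext htt
  rw [h9] at h8
  exact h8

/-- the Mumford-Tate conjecture implies that the joint Lie algebra is full -/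
theorem joint_of_mtc [TopologicalSpace G] [IsTopologicalGroup G] [CompactSpace G]
    (hB : T.Big c p q) (he : ∀ i, Enum c (e i) i) (hN : ∀ i, 5 ≤ N i) (hg : GalT c T.Q β)
    (hβ : Continuous β) (h : MTC (hM (fun _ => (1 : Matrix κ κ ℂ)) T) (tot v β))
    (X : ∀ i, Matrix (Fin (N i)) (Fin (N i)) ℚ_[ℓ]) (hX : ∀ i, SpLie (bform T (e i) ℓ) (X i)) :
    JTan ℓ (fun i => brep hg.bd (he i)) X := by
  refine Pool.Agent.R932.GR.joint_of_zar (ρ := fun i => brep hg.bd (he i))
    (J := fun i => bform T (e i) ℓ) (fun i => brep_cont hβ hg.bd (he i))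
    (fun i => ⟨Or.inl ⟨bform_symm (e i) ℓ, hN i⟩, bform_det hB.bQ (he i) ℓ⟩)
    (fun i => by have := hN i; omega) (fun i s => ⟨1, ?_⟩) (zar_of_mtc hB he hg h) X hX
  show (brep hg.bd (he i) s)ᵀ * bform T (e i) ℓ * brep hg.bd (he i) s = (1 : ℚ_[ℓ]) • _
  rw [one_smul]
  exact brep_iso hg hB.bQ (he i) s

end zar

section scalar

theorem scalar_commutant {F : Type} [Field F] {N : ℕ} (hN : 3 ≤ N)
    {J : Matrix (Fin N) (Fin N) F} (hs : Jᵀ = J) (hd : J.det ≠ 0) {A : Matrix (Fin N) (Fin N) F}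
    (hA : ∀ X, SpLie J X → A * X = X * A) : ∃ a : F, A = a • (1 : Matrix (Fin N) (Fin N) F) := by
  have hu : IsUnit J.det := isUnit_iff_ne_zero.2 hd
  have hX : ∀ a b : Fin N, SpLie J (J⁻¹ * (single a b (1 : F) - single b a 1)) := by
    intro p q
    unfold SpLie
    rw [transpose_mul, transpose_nonsing_inv, hs, mul_assoc, nonsing_inv_mul _ hu, mul_one,
      ← mul_assoc, mul_nonsing_inv _ hu, one_mul, transpose_sub, transpose_single,
      transpose_single]
    abel
  have hcol : ∀ a : Fin N, ∃ i, J⁻¹ i a ≠ 0 := by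
    intro a
    by_contra hcon
    push Not at hcon
    have h1 : (J * J⁻¹) a a = 0 := by
      rw [Matrix.mul_apply]
      exact Finset.sum_eq_zero fun i _ => by rw [hcon i, mul_zero]
    rw [mul_nonsing_inv _ hu, Matrix.one_apply_eq] at h1
    exact one_ne_zero h1
  -- entries of the relation
  have key : ∀ a b i k : Fin N, (A * J⁻¹) i a * (if b = k then 1 else 0) -
      (A * J⁻¹) i b * (if a = k then 1 else 0) = J⁻¹ i a * A b k - J⁻¹ i b * A a k := by
    intro a b i k
    have h1 := congrFun (congrFun (hA _ (hX a b)) i) k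
    rw [← mul_assoc, mul_sub, Matrix.sub_apply, mul_sub, sub_mul, Matrix.sub_apply] at h1
    have h2 : ∀ (M : Matrix (Fin N) (Fin N) F) (x y : Fin N),
        (M * single x y (1 : F)) i k = M i x * (if y = k then 1 else 0) := by
      intro M x y
      rw [Matrix.mul_apply, Finset.sum_eq_single x]
      · rw [Matrix.single_apply]
        simp
      · intro z _ hz
        rw [Matrix.single_apply, if_neg (by rintro ⟨h, -⟩; exact hz h.symm), mul_zero]
      · intro h
        exact absurd (Finset.mem_univ x) h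
    have h3 : ∀ x y : Fin N, (J⁻¹ * single x y (1 : F) * A) i k = J⁻¹ i x * A y k := by
      intro x y
      rw [Matrix.mul_apply, Finset.sum_eq_single y]
      · rw [Matrix.mul_apply, Finset.sum_eq_single x]
        · rw [Matrix.single_apply_same, mul_one]
        · intro z _ hz
          rw [Matrix.single_apply, if_neg (by rintro ⟨h, -⟩; exact hz h.symm), mul_zero]
        · intro h
          exact absurd (Finset.mem_univ x) h
      · intro z _ hz
        rw [Matrix.mul_apply, Finset.sum_eq_zero, zero_mul]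
        intro w _
        rw [Matrix.single_apply, if_neg (by rintro ⟨-, h⟩; exact hz h.symm), mul_zero]
      · intro h
        exact absurd (Finset.mem_univ y) h
    rw [h2, h2, h3, h3] at h1
    exact h1
  -- two columns of the inverse are independent
  have hind : ∀ a b : Fin N, a ≠ b → ∀ x y : F, (∀ i, J⁻¹ i a * x - J⁻¹ i b * y = 0) → x = 0 := by
    intro a b hab x y h
    have h1 : ∑ i, J a i * (J⁻¹ i a * x - J⁻¹ i b * y) = 0 :=
      Finset.sum_eq_zero fun i _ => by rw [h i, mul_zero]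
    have h2 : ∑ i, J a i * (J⁻¹ i a * x - J⁻¹ i b * y) =
        (J * J⁻¹) a a * x - (J * J⁻¹) a b * y := by
      rw [Matrix.mul_apply, Matrix.mul_apply, Finset.sum_mul, Finset.sum_mul,
        ← Finset.sum_sub_distrib]
      exact Finset.sum_congr rfl fun i _ => by ring
    rw [h2, mul_nonsing_inv _ hu, Matrix.one_apply_eq, Matrix.one_apply_ne hab, one_mul, zero_mul,
      sub_zero] at h1
    exact h1
  have hthird : ∀ a b : Fin N, ∃ k : Fin N, k ≠ a ∧ k ≠ b := by
    intro a b
    by_contra hcon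
    push Not at hcon
    have h1 : (Finset.univ : Finset (Fin N)) ⊆ {a, b} := by
      intro k _
      rw [Finset.mem_insert, Finset.mem_singleton]
      by_cases h : k = a
      · exact Or.inl h
      · exact Or.inr (hcon k h)
    have h2 := Finset.card_le_card h1
    rw [Finset.card_univ, Fintype.card_fin] at h2
    have h3 := Finset.card_le_two (a := a) (b := b)
    omega
  -- the matrix is diagonal
  have hdiag : ∀ b k : Fin N, b ≠ k → A b k = 0 := by
    intro b k hbk
    obtain ⟨a, hak, hab⟩ := hthird k b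
    refine hind a b hab (A b k) (A a k) fun i => ?_
    have h1 := key a b i k
    rw [if_neg hbk, if_neg hak, mul_zero, mul_zero, sub_zero] at h1
    exact h1.symm
  -- the diagonal entries agree
  have hent : ∀ a b i : Fin N, a ≠ b → (A * J⁻¹) i a = J⁻¹ i a * A b b := by
    intro a b i hab
    have h1 := key a b i b
    rw [if_pos rfl, if_neg hab, mul_one, mul_zero, sub_zero, hdiag a b hab, mul_zero, sub_zero] at h1
    exact h1
  have hall : ∀ b b' : Fin N, A b b = A b' b' := by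
    intro b b'
    obtain ⟨a, hab, hab'⟩ := hthird b b'
    obtain ⟨i, hi⟩ := hcol a
    have h1 := hent a b i hab
    have h2 := hent a b' i hab'
    rw [h1] at h2
    exact mul_left_cancel₀ hi h2
  refine ⟨A ⟨0, by omega⟩ ⟨0, by omega⟩, ?_⟩
  ext a b
  rw [Matrix.smul_apply, Matrix.one_apply, smul_eq_mul]
  by_cases hab : a = b
  · subst hab
    rw [if_pos rfl, mul_one]
    exact hall _ _
  · rw [if_neg hab, mul_zero]
    exact hdiag a b hab

variable {ℓ : ℕ} [hℓ : Fact ℓ.Prime] {N : ℕ} {G : Type} [Group G] [TopologicalSpace G]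
  [IsTopologicalGroup G] [CompactSpace G]

/-- full Lie algebra implies scalar commutants -/
theorem sc_of_full (hN : 3 ≤ N) {J : Matrix (Fin N) (Fin N) ℚ_[ℓ]} (hs : Jᵀ = J)
    (hd : J.det ≠ 0) {ρ : G →* Matrix (Fin N) (Fin N) ℚ_[ℓ]} (hρ : Continuous ρ)
    (hfull : ∀ X, SpLie J X → IsTangent ℓ ρ X) : SC ρ := by
  intro A U hU hA
  refine scalar_commutant hN hs hd fun X hX => ?_
  obtain ⟨σ, hσ⟩ := hfull X hX
  have h1 := Pool.Agent.R932.eventually_mem hρ hU (Pool.Agent.R932.tendsto_one hσ)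
  have h2 : Tendsto (fun n : ℕ => A * (((ℓ : ℚ_[ℓ]) ^ n)⁻¹ • (ρ (σ n) - 1)) -
      (((ℓ : ℚ_[ℓ]) ^ n)⁻¹ • (ρ (σ n) - 1)) * A) atTop (𝓝 (A * X - X * A)) :=
    ((continuous_const.matrix_mul continuous_id).tendsto X |>.comp hσ).sub
      ((continuous_id.matrix_mul continuous_const).tendsto X |>.comp hσ)
  have h3 : ∀ᶠ n : ℕ in atTop, A * (((ℓ : ℚ_[ℓ]) ^ n)⁻¹ • (ρ (σ n) - 1)) -
      (((ℓ : ℚ_[ℓ]) ^ n)⁻¹ • (ρ (σ n) - 1)) * A = 0 := by
    filter_upwards [h1] with n hn
    obtain ⟨u, hu, huρ⟩ := hn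
    rw [← huρ, Matrix.mul_smul, Matrix.smul_mul, mul_sub, sub_mul, hA u hu, mul_one, one_mul,
      sub_self]
  haveI : T2Space (Matrix (Fin N) (Fin N) ℚ_[ℓ]) :=
    inferInstanceAs (T2Space (Fin N → Fin N → ℚ_[ℓ]))
  have h4 : A * X - X * A = 0 :=
    tendsto_nhds_unique h2 (tendsto_const_nhds.congr' (h3.mono fun n hn => hn.symm))
  exact sub_eq_zero.1 h4

end scalar

end

end Pool.Agent.W5h21.MH
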